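import Pool.Agent.J4H95.RB.Core

set_option autoImplicit false

/-!
# The regular cluster gadget: the number of the sets of each phase
-/

namespace Pool.Agent.J4H95.RB

open Finset

/-! ### Counting functions -/

theorem card_fix {α : Type} [Fintype α] [DecidableEq α] (S : Finset α) (b : α → Bool) {F : Finset (α → Bool)}
    (hF : ∀ Y, Y ∈ F ↔ ∀ a ∈ S, Y a = b a) : #F * 2 ^ #S = 2 ^ Fintype.card α := by
  have h1 : F = Fintype.piFinset fun a => if a ∈ S then {b a} else univ := by
    ext Y
    rw [hF, Fintype.mem_piFinset]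
    constructor
    · rintro h a
      split_ifs with ha
      · rw [mem_singleton]; exact h a ha
      · exact mem_univ _
    · intro h a ha
      have := h a
      rw [if_pos ha, mem_singleton] at this
      exact this
  rw [h1, Fintype.card_piFinset]
  have h2 : ∀ a, #(if a ∈ S then ({b a} : Finset Bool) else univ) = if a ∈ S then 1 else 2 := by
    intro a; split_ifs <;> simp
  simp only [h2]
  rw [prod_ite]
  simp only [prod_const_one, one_mul, prod_const]
  rw [← pow_add]
  congr 1
  have h3 := card_filter_add_card_filter_not (s := (univ : Finset α)) (fun a => a ∈ S)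
  have h4 : #{a ∈ (univ : Finset α) | a ∈ S} = #S := by rw [filter_mem_eq_inter, univ_inter]
  rw [← card_univ (α := α)]
  omega

variable {ι κ : Type} [Fintype ι] [DecidableEq ι] [Fintype κ] [DecidableEq κ]

theorem card_fix2 (S : Finset (ι × κ)) (b : ι × κ → Bool) {F : Finset (ι → κ → Bool)}
    (hF : ∀ Y, Y ∈ F ↔ ∀ p ∈ S, Y p.1 p.2 = b p) :
    (#F : ℝ) = 2 ^ (Fintype.card ι * Fintype.card κ) * (1 / 2) ^ #S := by
  have h1 : #F = #{Y : ι × κ → Bool | ∀ a ∈ S, Y a = b a} := by
    apply card_equiv (Equiv.curry ι κ Bool).symm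
    intro Y
    rw [hF]
    simp [Equiv.curry, Function.uncurry]
  have h2 := card_fix S b (F := {Y : ι × κ → Bool | ∀ a ∈ S, Y a = b a}) (fun Y => by simp)
  rw [h1]
  rw [Fintype.card_prod] at h2
  have h3 : (#{Y : ι × κ → Bool | ∀ a ∈ S, Y a = b a} : ℝ) * 2 ^ #S = 2 ^ (Fintype.card ι * Fintype.card κ) := by
    exact_mod_cast h2
  rw [← h3, mul_assoc, ← mul_pow]
  norm_num

theorem card_34 {a b : κ} (hab : a ≠ b) (B : Finset ι) {F : Finset (ι → κ → Bool)}
    (hF : ∀ Y, Y ∈ F ↔ ∀ s ∈ B, Y s a = true → Y s b = true → False) :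
    (#F : ℝ) = 2 ^ (Fintype.card ι * Fintype.card κ) * (3 / 4) ^ #B := by
  set A : Finset (κ → Bool) := {y | y a = true → y b = true → False} with hA
  have hA1 : #A * 4 = 3 * 2 ^ Fintype.card κ := by
    have h1 := card_filter_add_card_filter_not (s := (univ : Finset (κ → Bool))) (fun y => y a = true → y b = true → False)
    have h3 := card_fix ({a, b} : Finset κ) (fun _ => true) (F := {y : κ → Bool | ¬ (y a = true → y b = true → False)})
      (fun y => by simp)
    rw [card_pair hab] at h3
    rw [card_univ, Fintype.card_fun, Fintype.card_bool, ← hA] at h1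
    omega
  have h1 : F = Fintype.piFinset fun s => if s ∈ B then A else univ := by
    ext Y
    rw [hF, Fintype.mem_piFinset]
    constructor
    · rintro h s
      split_ifs with hs
      · rw [hA, mem_filter]; exact ⟨mem_univ _, h s hs⟩
      · exact mem_univ _
    · intro h s hs
      have := h s
      rw [if_pos hs, hA, mem_filter] at this
      exact this.2
  rw [h1, Fintype.card_piFinset]
  have h2 : ∀ s, (#(if s ∈ B then A else univ) : ℝ) = 2 ^ Fintype.card κ * (if s ∈ B then 3 / 4 else 1) := by
    intro s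
    split_ifs
    · have : (#A : ℝ) * 4 = 3 * 2 ^ Fintype.card κ := by exact_mod_cast hA1
      linarith
    · simp
  push_cast
  simp only [h2]
  rw [prod_mul_distrib, prod_const, card_univ, ← pow_mul, mul_comm (Fintype.card κ)]
  congr 1
  rw [prod_ite]
  simp only [prod_const_one, mul_one, prod_const]
  congr 2
  ext s; simp

/-! ### The phases -/

variable {P R : Type} [Fintype P] [DecidableEq P] [Fintype R] [DecidableEq R]
  {E : P → R → Prop} {m : ℕ} {st : ι} {ar : ι → Option (P × (R ⊕ P))}

/-- the active left vertices of a phase -/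
def act (σ : Cl P R → Bool) : Finset P := {u | σ (cU u) = true}

/-- the number of all the sets -/
noncomputable def WW (P R ι : Type) [Fintype P] [Fintype R] [Fintype ι] : ℝ :=
  2 ^ (Fintype.card ι * Fintype.card (Cl P R))

theorem GS_le (σ : Cl P R → Bool) : (#(GS st ar σ) : ℝ) ≤ WW P R ι := by
  have h : #(GS st ar σ) ≤ 2 ^ (Fintype.card ι * Fintype.card (Cl P R)) := by
    refine (card_filter_le _ _).trans (le_of_eq ?_)
    rw [card_univ, Fintype.card_fun, Fintype.card_fun, Fintype.card_bool, ← pow_mul, mul_comm]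
  unfold WW
  exact_mod_cast h

/-- the first class of phases -/
def Cl0 (ar : ι → Option (P × (R ⊕ P))) (σ : Cl P R → Bool) : Prop :=
  σ none = false ∧ ∀ s u j, ar s = some (u, j) → σ (cU u) = false → σ (cJ j) = false

/-- the second class of phases -/
def Cl1 (ar : ι → Option (P × (R ⊕ P))) (σ : Cl P R → Bool) : Prop :=
  σ none = true ∧ ∀ s u j, ar s = some (u, j) → σ (cU u) = true ∧ σ (cJ j) = true

theorem le_GS0 {σ : Cl P R → Bool} (h : Cl0 ar σ) : WW P R ι * (1 / 2) ^ #(act σ) ≤ #(GS st ar σ) := by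
  set F : Finset (ι → Cl P R → Bool) := {Y | ∀ p ∈ ((act σ).image fun u => ((st, cU u) : ι × Cl P R)), Y p.1 p.2 = false} with hF
  have h1 := card_fix2 ((act σ).image fun u => ((st, cU u) : ι × Cl P R)) (fun _ => false) (F := F) (fun Y => by rw [hF, mem_filter]; simp)
  rw [card_image_of_injective _ (fun u v huv => by simpa using huv)] at h1
  unfold WW
  rw [← h1]
  have h2 : #F ≤ #(GS st ar σ) := by
    apply card_le_card
    intro Y hY
    rw [hF, mem_filter] at hY
    unfold GS
    rw [mem_filter]
    refine ⟨mem_univ _, fun s u j hs => ⟨fun h3 h4 _ _ => ?_, fun _ h4 _ _ => ?_, fun _ h4 _ h5 => ?_⟩⟩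
    · rw [h.2 s u j hs h3] at h4; exact absurd h4 (by simp)
    · rw [h.1] at h4; exact absurd h4 (by simp)
    · have := hY.2 (st, cU u) (mem_image.2 ⟨u, by unfold act; rw [mem_filter]; exact ⟨mem_univ _, h4⟩, rfl⟩)
      simp only at this
      rw [this] at h5
      exact absurd h5 (by simp)
  exact_mod_cast h2

theorem GS0_le (hA : Arcs E m st ar) {σ : Cl P R → Bool} (h : Cl0 ar σ) :
    (#(GS st ar σ) : ℝ) ≤ WW P R ι * ((1 / 2) ^ #(act σ) + Fintype.card P * (1 / 2) ^ m) := by
  set F : Finset (ι → Cl P R → Bool) := {Y | ∀ p ∈ ((act σ).image fun u => ((st, cU u) : ι × Cl P R)), Y p.1 p.2 = false} with hF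
  have h1 := card_fix2 ((act σ).image fun u => ((st, cU u) : ι × Cl P R)) (fun _ => false) (F := F) (fun Y => by rw [hF, mem_filter]; simp)
  rw [card_image_of_injective _ (fun u v huv => by simpa using huv)] at h1
  -- the sets with no element in the column of `Γ`
  set D : P → Finset (ι → Cl P R → Bool) := fun u =>
    {Y | ∀ p ∈ (({s | ar s = some (u, Sum.inr u)} : Finset ι).image fun s => ((s, none) : ι × Cl P R)), Y p.1 p.2 = false} with hD
  have h2 : ∀ u, (#(D u) : ℝ) ≤ WW P R ι * (1 / 2) ^ m := by
    intro u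
    have h3 := card_fix2 (({s | ar s = some (u, Sum.inr u)} : Finset ι).image fun s => ((s, none) : ι × Cl P R)) (fun _ => false)
      (F := D u) (fun Y => by rw [hD]; simp only [mem_filter, mem_univ, true_and])
    rw [card_image_of_injective _ (fun u v huv => by simpa using huv)] at h3
    rw [h3]
    unfold WW
    apply mul_le_mul_of_nonneg_left _ (by positivity)
    exact pow_le_pow_of_le_one (by norm_num) (by norm_num) (hA.cP u)
  have h3 : GS st ar σ ⊆ F ∪ (univ : Finset P).biUnion D := by
    intro Y hY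
    unfold GS at hY
    rw [mem_filter] at hY
    by_cases h4 : ∃ u, σ (cU u) = true ∧ Y st (cU u) = true
    · apply mem_union_right
      obtain ⟨u, h5, h6⟩ := h4
      rw [mem_biUnion]
      refine ⟨u, mem_univ _, ?_⟩
      rw [hD]
      simp only [mem_filter, mem_image, mem_univ, true_and]
      rintro p ⟨s, hs, rfl⟩
      simp only
      by_contra h7
      rw [Bool.not_eq_false] at h7
      exact (hY.2 s u _ hs).2.2 h.1 h5 h7 h6
    · apply mem_union_left
      push Not at h4
      rw [hF, mem_filter]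
      refine ⟨mem_univ _, fun p hp => ?_⟩
      rw [mem_image] at hp
      obtain ⟨u, hu, rfl⟩ := hp
      unfold act at hu
      rw [mem_filter] at hu
      have := h4 u hu.2
      simpa using this
  have h4 : (#(GS st ar σ) : ℝ) ≤ #F + ∑ u : P, (#(D u) : ℝ) := by
    have h5 := (card_le_card h3).trans ((card_union_le _ _).trans (Nat.add_le_add_left card_biUnion_le _))
    exact_mod_cast h5
  rw [h1] at h4
  refine h4.trans ?_
  rw [mul_add]
  apply add_le_add
  · unfold WW; exact le_refl _
  · refine (sum_le_sum fun u _ => h2 u).trans (le_of_eq ?_)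
    rw [sum_const, card_univ, nsmul_eq_mul]
    ring

theorem GS1 {σ : Cl P R → Bool} (h : Cl1 ar σ) : (#(GS st ar σ) : ℝ) = WW P R ι := by
  have h1 : GS st ar σ = univ := by
    unfold GS
    rw [filter_true_of_mem]
    intro Y _ s u j hs
    obtain ⟨h2, h3⟩ := h.2 s u j hs
    refine ⟨fun h4 _ _ _ => ?_, fun h4 _ _ _ => ?_, fun h4 _ _ _ => ?_⟩
    · rw [h2] at h4; exact absurd h4 (by simp)
    · rw [h3] at h4; exact absurd h4 (by simp)
    · rw [h.1] at h4; exact absurd h4 (by simp)
  rw [h1, card_univ, Fintype.card_fun, Fintype.card_fun, Fintype.card_bool, ← pow_mul, mul_comm]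
  unfold WW
  push_cast
  rfl

theorem GSbad (hA : Arcs E m st ar) {σ : Cl P R → Bool} (h0 : ¬ Cl0 ar σ) (h1 : ¬ Cl1 ar σ) :
    (#(GS st ar σ) : ℝ) ≤ WW P R ι * (3 / 4) ^ m := by
  have hm : ∀ s u j, ar s = some (u, j) → m ≤ #{s | ar s = some (u, j)} := by
    intro s u j hs
    rcases j with v | w
    · exact hA.cE u v (hA.edge s u v hs)
    · rw [hA.pend s u w hs]
      exact hA.cP u
  have key : ∀ (B : Finset ι) (a b : Cl P R), m ≤ #B → a ≠ b →
      (∀ Y ∈ GS st ar σ, ∀ s ∈ B, Y s a = true → Y s b = true → False) →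
      (#(GS st ar σ) : ℝ) ≤ WW P R ι * (3 / 4) ^ m := by
    intro B a b hB hab hY
    set F : Finset (ι → Cl P R → Bool) := {Y | ∀ s ∈ B, Y s a = true → Y s b = true → False} with hF
    have h2 : #(GS st ar σ) ≤ #F := by
      apply card_le_card
      intro Y hY'
      rw [hF, mem_filter]
      exact ⟨mem_univ _, hY Y hY'⟩
    have h3 : (#(GS st ar σ) : ℝ) ≤ #F := by
      exact_mod_cast h2
    refine h3.trans ?_
    rw [card_34 hab B (F := F) (fun Y => by rw [hF, mem_filter]; simp only [mem_univ, true_and])]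
    unfold WW
    apply mul_le_mul_of_nonneg_left _ (by positivity)
    exact pow_le_pow_of_le_one (by norm_num) (by norm_num) hB
  have case1 : ∀ s u j, ar s = some (u, j) → σ (cU u) = false → σ (cJ j) = true → (#(GS st ar σ) : ℝ) ≤ WW P R ι * (3 / 4) ^ m := by
    intro s u j hs h2 h3
    refine key {s | ar s = some (u, j)} (cU u) (cJ j) (hm s u j hs) (by simp) ?_
    intro Y hY s' hs' h4 h5
    unfold GS at hY
    rw [mem_filter] at hY hs'
    exact (hY.2 s' u j hs'.2).1 h2 h3 h4 h5
  rcases hσ : σ none with _ | _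
  · unfold Cl0 at h0
    push Not at h0
    obtain ⟨s, u, j, hs, h2, h3⟩ := h0 hσ
    exact case1 s u j hs h2 (by simpa using h3)
  · unfold Cl1 at h1
    rw [not_and] at h1
    have h1 := h1 hσ
    push Not at h1
    obtain ⟨s, u, j, hs, h2⟩ := h1
    rcases hj : σ (cJ j) with _ | _
    · refine key {s | ar s = some (u, j)} (cJ j) none (hm s u j hs) (by simp) ?_
      intro Y hY s' hs' h4 h5
      unfold GS at hY
      rw [mem_filter] at hY hs'
      exact (hY.2 s' u j hs'.2).2.1 hj hσ h4 h5
    · refine case1 s u j hs ?_ hj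
      by_contra h3
      rw [Bool.not_eq_false] at h3
      exact h2 h3 hj

/-- the sets which miss an active cluster -/
theorem GN_ge (σ : Cl P R → Bool) : (#(GS st ar σ) : ℝ) - WW P R ι * (Fintype.card (Cl P R) * (1 / 2) ^ Fintype.card ι) ≤ #(GN st ar σ) := by
  set D : Cl P R → Finset (ι → Cl P R → Bool) := fun c =>
    {Y | ∀ p ∈ ((univ : Finset ι).image fun s => ((s, c) : ι × Cl P R)), Y p.1 p.2 = false} with hD
  have h2 : ∀ c, (#(D c) : ℝ) = WW P R ι * (1 / 2) ^ Fintype.card ι := by
    intro c
    have h3 := card_fix2 ((univ : Finset ι).image fun s => ((s, c) : ι × Cl P R)) (fun _ => false)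
      (F := D c) (fun Y => by rw [hD]; simp only [mem_filter, mem_univ, true_and])
    rw [card_image_of_injective _ (fun u v huv => by simpa using huv), card_univ] at h3
    rw [h3]
    unfold WW
    rfl
  have h3 : GS st ar σ ⊆ GN st ar σ ∪ (univ : Finset (Cl P R)).biUnion D := by
    intro Y hY
    unfold GS at hY
    rw [mem_filter] at hY
    by_cases h4 : ∀ c, σ c = true → ∃ s, Y s c = true
    · apply mem_union_left
      unfold GN
      rw [mem_filter]
      exact ⟨mem_univ _, hY.2, h4⟩
    · apply mem_union_right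
      push Not at h4
      obtain ⟨c, _, h5⟩ := h4
      rw [mem_biUnion]
      refine ⟨c, mem_univ _, ?_⟩
      rw [hD]
      simp only [mem_filter, mem_image, mem_univ, true_and]
      rintro p ⟨s, rfl⟩
      simpa using h5 s
  have h4 : (#(GS st ar σ) : ℝ) ≤ #(GN st ar σ) + ∑ c : Cl P R, (#(D c) : ℝ) := by
    have h5 := (card_le_card h3).trans ((card_union_le _ _).trans (Nat.add_le_add_left card_biUnion_le _))
    exact_mod_cast h5
  simp only [h2] at h4
  rw [sum_const, card_univ, nsmul_eq_mul] at h4
  linarith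

end Pool.Agent.J4H95.RB
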