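import Mathlib

set_option autoImplicit false

/-!
# The regular cluster gadget: counting its independent sets

The clusters are `Γ`, one for each left vertex, one for each right vertex and one pendant for each left vertex.
-/

namespace Pool.Agent.J4H95.RB

open Finset

/-- the clusters: `none` is `Γ`, then the left vertices, the right vertices, the pendants -/
abbrev Cl (P R : Type) : Type := Option (P ⊕ (R ⊕ P))

variable {P R ι : Type} [Fintype P] [DecidableEq P] [Fintype R] [DecidableEq R] [Fintype ι] [DecidableEq ι]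

/-- the cluster of a left vertex -/
abbrev cU (u : P) : Cl P R := some (Sum.inl u)

/-- the cluster of a right vertex or of a pendant -/
abbrev cJ (j : R ⊕ P) : Cl P R := some (Sum.inr j)

/-- The neighbour number `s'` of the left vertex `(c, s)`. -/
def nb (st : ι) (ar : ι → Option (P × (R ⊕ P))) (c : Cl P R) (s s' : ι) : Cl P R × ι :=
  match ar s with
  | none => (c, s')
  | some (u, j) => if c = cU u ∧ s' = st then (cJ j, s) else if c = cJ j ∧ s' = s then (none, s) else
      if c = none ∧ s' = s then (cU u, st) else (c, s')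

/-- The hypotheses on the arcs. -/
structure Arcs (E : P → R → Prop) (m : ℕ) (st : ι) (ar : ι → Option (P × (R ⊕ P))) : Prop where
  star : ar st = none
  pend : ∀ s u w, ar s = some (u, Sum.inr w) → w = u
  edge : ∀ s u v, ar s = some (u, Sum.inl v) → E u v
  cP : ∀ u, m ≤ #{s | ar s = some (u, Sum.inr u)}
  cE : ∀ u v, E u v → m ≤ #{s | ar s = some (u, Sum.inl v)}

variable {E : P → R → Prop} {m : ℕ} {st : ι} {ar : ι → Option (P × (R ⊕ P))}

omit [Fintype P] [Fintype R] in
theorem nb_cases (c : Cl P R) (s s' : ι) : nb st ar c s s' = (c, s') ∨ ∃ u j, ar s = some (u, j) ∧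
    ((c = cU u ∧ s' = st ∧ nb st ar c s s' = (cJ j, s)) ∨ (c = cJ j ∧ s' = s ∧ nb st ar c s s' = (none, s)) ∨
      (c = none ∧ s' = s ∧ nb st ar c s s' = (cU u, st))) := by
  unfold nb
  rcases h : ar s with _ | ⟨u, j⟩
  · left; rfl
  · simp only
    split_ifs with h1 h2 h3
    · right; exact ⟨u, j, rfl, Or.inl ⟨h1.1, h1.2, rfl⟩⟩
    · right; exact ⟨u, j, rfl, Or.inr (Or.inl ⟨h2.1, h2.2, rfl⟩)⟩
    · right; exact ⟨u, j, rfl, Or.inr (Or.inr ⟨h3.1, h3.2, rfl⟩)⟩
    · left; rfl

omit [Fintype P] [Fintype R] [Fintype ι] in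
theorem nb1 {s : ι} {u : P} {j : R ⊕ P} (h : ar s = some (u, j)) : nb st ar (cU u) s st = (cJ j, s) := by
  unfold nb
  rw [h]; simp

omit [Fintype P] [Fintype R] [Fintype ι] in
theorem nb2 {s : ι} {u : P} {j : R ⊕ P} (h : ar s = some (u, j)) : nb st ar (cJ j) s s = (none, s) := by
  unfold nb
  rw [h]; simp

omit [Fintype P] [Fintype R] [Fintype ι] in
theorem nb3 {s : ι} {u : P} {j : R ⊕ P} (h : ar s = some (u, j)) : nb st ar (none : Cl P R) s s = (cU u, st) := by
  unfold nb
  rw [h]; simp

/-- pairs of sets of vertices -/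
abbrev Cfg (P R ι : Type) : Type := (Cl P R → ι → Bool) × (Cl P R → ι → Bool)

/-- independence -/
def Ind (st : ι) (ar : ι → Option (P × (R ⊕ P))) (x : Cfg P R ι) : Prop :=
  ∀ c s s', x.1 c s = true → x.2 (nb st ar c s s').1 (nb st ar c s s').2 = true → False

instance : DecidablePred (Ind (P := P) (R := R) st ar) := fun _ => by unfold Ind; infer_instance

/-- a mixed cluster -/
def Mix (x : Cfg P R ι) (c : Cl P R) : Prop := (∃ s, x.1 c s = true) ∧ ∃ s, x.2 c s = true

instance : ∀ (x : Cfg P R ι), DecidablePred (Mix x) := fun _ _ => by unfold Mix; infer_instance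

/-! ### Mixed clusters -/

/-- the local pairs with a mixed cluster -/
def LM (ar : ι → Option (P × (R ⊕ P))) : Finset ((ι → Bool) × (ι → Bool)) :=
  (Fintype.piFinset fun s => if ar s = none then {false} else univ) ×ˢ (univ.image fun s' : ι => fun s => decide (s = s'))

omit [Fintype P] [Fintype R] in
theorem card_LM : #(LM ar) ≤ 2 ^ #{s | ar s ≠ none} * Fintype.card ι := by
  unfold LM
  rw [card_product, Fintype.card_piFinset]
  apply Nat.mul_le_mul
  · have : ∀ s, #(if ar s = none then ({false} : Finset Bool) else univ) = if ar s ≠ none then 2 else 1 := by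
      intro s
      split_ifs <;> simp_all
    simp only [this]
    rw [prod_ite]; simp
  · exact card_image_le.trans (le_of_eq (card_univ))

/-- local pairs -/
def LI (ar : ι → Option (P × (R ⊕ P))) : Finset ((ι → Bool) × (ι → Bool)) :=
  (univ ×ˢ {fun _ => false}) ∪ ({fun _ => false} ×ˢ univ) ∪ LM ar

omit [Fintype P] [Fintype R] in
theorem card_LI (h : 2 ^ #{s | ar s ≠ none} * Fintype.card ι ≤ 2 ^ Fintype.card ι) : #(LI ar) ≤ 3 * 2 ^ Fintype.card ι := by
  unfold LI
  refine (card_union_le _ _).trans ?_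
  have h1 := card_union_le ((univ : Finset (ι → Bool)) ×ˢ ({fun _ => (false : Bool)} : Finset (ι → Bool)))
    (({fun _ => (false : Bool)} : Finset (ι → Bool)) ×ˢ (univ : Finset (ι → Bool)))
  rw [card_product, card_product, card_univ, Fintype.card_fun, card_singleton, Fintype.card_bool] at h1
  have h2 := card_LM (ar := ar)
  omega

theorem Ind.mix {x : Cfg P R ι} (hx : Ind st ar x) {c : Cl P R} (hc : Mix x c) : (x.1 c, x.2 c) ∈ LM ar := by
  obtain ⟨⟨s₀, hs₀⟩, ⟨s₁, hs₁⟩⟩ := hc
  -- all pairs are deleted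
  have key : ∀ s s', x.1 c s = true → x.2 c s' = true → ∃ u j, ar s = some (u, j) ∧
      ((c = cU u ∧ s' = st) ∨ (c = cJ j ∧ s' = s) ∨ (c = none ∧ s' = s)) := by
    intro s s' h1 h2
    rcases nb_cases (st := st) (ar := ar) c s s' with h | ⟨u, j, h, h3⟩
    · exact absurd (hx c s s' h1 (by rw [h]; exact h2)) id
    · refine ⟨u, j, h, ?_⟩
      rcases h3 with h3 | h3 | h3
      · exact Or.inl ⟨h3.1, h3.2.1⟩
      · exact Or.inr (Or.inl ⟨h3.1, h3.2.1⟩)
      · exact Or.inr (Or.inr ⟨h3.1, h3.2.1⟩)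
  unfold LM
  rw [mem_product, Fintype.mem_piFinset, mem_image]
  refine ⟨fun s => ?_, s₁, mem_univ _, ?_⟩
  · simp only
    split_ifs with h
    · rw [mem_singleton]
      by_contra h1
      rw [Bool.not_eq_false] at h1
      obtain ⟨u, j, h2, _⟩ := key s s₁ h1 hs₁
      rw [h] at h2
      exact absurd h2 (by simp)
    · exact mem_univ _
  · funext s
    by_cases hs : s = s₁
    · subst hs; simp [hs₁]
    · rw [decide_eq_false hs]
      by_contra h1
      have h1 : x.2 c s = true := by
        rcases h2 : x.2 c s with _ | _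
        · exact absurd h2.symm h1
        · rfl
      obtain ⟨u, j, h2, h3⟩ := key s₀ s hs₀ h1
      obtain ⟨u', j', h4, h5⟩ := key s₀ s₁ hs₀ hs₁
      rw [h2] at h4
      simp only [Option.some.injEq, Prod.mk.injEq] at h4
      obtain ⟨rfl, rfl⟩ := h4
      apply hs
      rcases h3 with ⟨h3, h3'⟩ | ⟨h3, h3'⟩ | ⟨h3, h3'⟩ <;> rcases h5 with ⟨h5, h5'⟩ | ⟨h5, h5'⟩ | ⟨h5, h5'⟩ <;>
        first | (exfalso; have h6 := h3.symm.trans h5; simp at h6; done) | (rw [h3', h5'])

theorem Ind.loc {x : Cfg P R ι} (hx : Ind st ar x) (c : Cl P R) : (x.1 c, x.2 c) ∈ LI ar := by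
  unfold LI
  by_cases hc : Mix x c
  · exact mem_union_right _ (hx.mix hc)
  · apply mem_union_left
    unfold Mix at hc
    rw [not_and_or] at hc
    rcases hc with hc | hc
    · apply mem_union_right
      push Not at hc
      rw [mem_product, mem_singleton]
      exact ⟨funext fun s => by simpa using hc s, mem_univ _⟩
    · apply mem_union_left
      push Not at hc
      rw [mem_product, mem_singleton]
      exact ⟨mem_univ _, funext fun s => by simpa using hc s⟩

/-- the number of the independent sets with a mixed cluster -/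
theorem card_mixed (h : 2 ^ #{s | ar s ≠ none} * Fintype.card ι ≤ 2 ^ Fintype.card ι) :
    #{x : Cfg P R ι | Ind st ar x ∧ ∃ c, Mix x c} ≤
      Fintype.card (Cl P R) * (2 ^ #{s | ar s ≠ none} * Fintype.card ι * (3 * 2 ^ Fintype.card ι) ^ (Fintype.card (Cl P R) - 1)) := by
  have h1 : ∀ c : Cl P R, #{x : Cfg P R ι | Ind st ar x ∧ Mix x c} ≤
      2 ^ #{s | ar s ≠ none} * Fintype.card ι * (3 * 2 ^ Fintype.card ι) ^ (Fintype.card (Cl P R) - 1) := by
    intro c
    have h2 : #{x : Cfg P R ι | Ind st ar x ∧ Mix x c} ≤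
        #(Fintype.piFinset fun c' : Cl P R => if c' = c then LM ar else LI ar) := by
      apply card_le_card_of_injOn (fun x c' => (x.1 c', x.2 c'))
      · intro x hx
        rw [mem_coe, mem_filter] at hx
        rw [mem_coe, Fintype.mem_piFinset]
        intro c'
        by_cases hc : c' = c
        · subst hc; rw [if_pos rfl]; exact hx.2.1.mix hx.2.2
        · rw [if_neg hc]; exact hx.2.1.loc c'
      · intro x _ y _ hxy
        simp only at hxy
        apply Prod.ext
        · funext c'; exact (Prod.mk.inj (congrFun hxy c')).1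
        · funext c'; exact (Prod.mk.inj (congrFun hxy c')).2
    refine h2.trans ?_
    rw [Fintype.card_piFinset]
    have h3 : ∏ c' : Cl P R, #(if c' = c then LM ar else LI ar) = #(LM ar) * ∏ c' ∈ univ.erase c, #(LI ar) := by
      rw [← mul_prod_erase univ _ (mem_univ c), if_pos rfl]
      congr 1
      apply prod_congr rfl
      intro c' hc'
      rw [if_neg (ne_of_mem_erase hc')]
    rw [h3, prod_const, card_erase_of_mem (mem_univ c), card_univ]
    exact Nat.mul_le_mul card_LM (Nat.pow_le_pow_left (card_LI h) _)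
  have h4 : ({x : Cfg P R ι | Ind st ar x ∧ ∃ c, Mix x c} : Finset _) ⊆
      univ.biUnion fun c : Cl P R => {x : Cfg P R ι | Ind st ar x ∧ Mix x c} := by
    intro x hx
    rw [mem_filter] at hx
    obtain ⟨_, hx1, c, hc⟩ := hx
    rw [mem_biUnion]
    exact ⟨c, mem_univ _, by rw [mem_filter]; exact ⟨mem_univ _, hx1, hc⟩⟩
  refine (card_le_card h4).trans (card_biUnion_le.trans ?_)
  refine (sum_le_sum fun c _ => h1 c).trans (le_of_eq ?_)
  rw [sum_const, card_univ, smul_eq_mul]

/-! ### Pure configurations -/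

/-- the constraints of the phase `σ` -/
def Cons (st : ι) (ar : ι → Option (P × (R ⊕ P))) (σ : Cl P R → Bool) (Y : ι → Cl P R → Bool) : Prop :=
  ∀ s u j, ar s = some (u, j) →
    (σ (cU u) = false → σ (cJ j) = true → Y s (cU u) = true → Y s (cJ j) = true → False) ∧
    (σ (cJ j) = false → σ none = true → Y s (cJ j) = true → Y s none = true → False) ∧
    (σ none = false → σ (cU u) = true → Y s none = true → Y st (cU u) = true → False)

noncomputable instance (σ : Cl P R → Bool) : DecidablePred (Cons (P := P) (R := R) st ar σ) := Classical.decPred _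

/-- the sets of the phase `σ` -/
noncomputable def GS (st : ι) (ar : ι → Option (P × (R ⊕ P))) (σ : Cl P R → Bool) : Finset (ι → Cl P R → Bool) :=
  {Y | Cons st ar σ Y}

/-- the sets of the phase `σ` which meet all the active clusters of the phase -/
noncomputable def GN (st : ι) (ar : ι → Option (P × (R ⊕ P))) (σ : Cl P R → Bool) : Finset (ι → Cl P R → Bool) :=
  {Y | Cons st ar σ Y ∧ ∀ c, σ c = true → ∃ s, Y s c = true}

theorem pure_le : #{x : Cfg P R ι | Ind st ar x ∧ ¬ ∃ c, Mix x c} ≤ ∑ σ : Cl P R → Bool, #(GS st ar σ) := by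
  rw [← card_sigma]
  apply card_le_card_of_injOn (fun x => (⟨fun c => decide (∃ s, x.2 c s = true),
    fun s c => if (∃ s, x.2 c s = true) then x.2 c s else x.1 c s⟩ : Σ _ : Cl P R → Bool, ι → Cl P R → Bool))
  · intro x hx
    rw [mem_coe, mem_filter] at hx
    obtain ⟨_, hx1, hx2⟩ := hx
    rw [mem_coe, mem_sigma]
    refine ⟨mem_univ _, ?_⟩
    unfold GS
    rw [mem_filter]
    refine ⟨mem_univ _, ?_⟩
    intro s u j hs
    simp only [decide_eq_false_iff_not, decide_eq_true_eq]
    refine ⟨fun h1 h2 h3 h4 => ?_, fun h1 h2 h3 h4 => ?_, fun h1 h2 h3 h4 => ?_⟩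
    · rw [if_neg h1] at h3
      rw [if_pos h2] at h4
      exact hx1 (cU u) s st h3 (by rw [nb1 hs]; exact h4)
    · rw [if_neg h1] at h3
      rw [if_pos h2] at h4
      exact hx1 (cJ j) s s h3 (by rw [nb2 hs]; exact h4)
    · rw [if_neg h1] at h3
      rw [if_pos h2] at h4
      exact hx1 none s s h3 (by rw [nb3 hs]; exact h4)
  · intro x hx y hy hxy
    rw [mem_coe, mem_filter] at hx hy
    obtain ⟨_, hx1, hx2⟩ := hx
    obtain ⟨_, hy1, hy2⟩ := hy
    simp only [Sigma.mk.injEq, heq_eq_eq] at hxy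
    obtain ⟨e1, e2⟩ := hxy
    have e3 : ∀ c, (∃ s, x.2 c s = true) ↔ ∃ s, y.2 c s = true := fun c => by
      have := congrFun e1 c
      simpa using this
    have e4 : ∀ s c, (if (∃ s, x.2 c s = true) then x.2 c s else x.1 c s) =
        if (∃ s, y.2 c s = true) then y.2 c s else y.1 c s := fun s c => congrFun (congrFun e2 s) c
    have f1 : ∀ (z : Cfg P R ι), (¬ ∃ c, Mix z c) → ∀ c, (∃ s, z.2 c s = true) → ∀ s, z.1 c s = false := by
      intro z hz c hc s
      by_contra h
      rw [Bool.not_eq_false] at h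
      exact hz ⟨c, ⟨s, h⟩, hc⟩
    have f2 : ∀ (z : Cfg P R ι) c, (¬ ∃ s, z.2 c s = true) → ∀ s, z.2 c s = false := by
      intro z c hc s
      by_contra h
      rw [Bool.not_eq_false] at h
      exact hc ⟨s, h⟩
    apply Prod.ext <;> funext c s
    · by_cases h : ∃ s, x.2 c s = true
      · rw [f1 x hx2 c h s, f1 y hy2 c ((e3 c).1 h) s]
      · have := e4 s c
        rw [if_neg h, if_neg (fun h' => h ((e3 c).2 h'))] at this
        exact this
    · by_cases h : ∃ s, x.2 c s = true
      · have := e4 s c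
        rw [if_pos h, if_pos ((e3 c).1 h)] at this
        exact this
      · rw [f2 x c h s, f2 y c (fun h' => h ((e3 c).2 h')) s]

theorem le_pure : ∑ σ : Cl P R → Bool, #(GN st ar σ) ≤ #{x : Cfg P R ι | Ind st ar x} := by
  rw [← card_sigma]
  apply card_le_card_of_injOn (fun z : (Σ _ : Cl P R → Bool, ι → Cl P R → Bool) =>
    ((fun c s => !z.1 c && z.2 s c, fun c s => z.1 c && z.2 s c) : Cfg P R ι))
  · rintro ⟨σ, Y⟩ hz
    rw [mem_coe, mem_sigma] at hz
    obtain ⟨_, hz⟩ := hz
    unfold GN at hz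
    rw [mem_filter] at hz
    obtain ⟨_, hz1, _⟩ := hz
    rw [mem_coe, mem_filter]
    refine ⟨mem_univ _, ?_⟩
    intro c s s' h1 h2
    simp only [Bool.and_eq_true, Bool.not_eq_true'] at h1 h2
    rcases nb_cases (st := st) (ar := ar) c s s' with h | ⟨u, j, h, h3⟩
    · rw [h] at h2
      rw [h1.1] at h2
      exact absurd h2.1 (by simp)
    · obtain ⟨k1, k2, k3⟩ := hz1 s u j h
      rcases h3 with ⟨rfl, rfl, h3⟩ | ⟨rfl, rfl, h3⟩ | ⟨rfl, rfl, h3⟩
      · rw [h3] at h2; exact k1 h1.1 h2.1 h1.2 h2.2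
      · rw [h3] at h2; exact k2 h1.1 h2.1 h1.2 h2.2
      · rw [h3] at h2; exact k3 h1.1 h2.1 h1.2 h2.2
  · rintro ⟨σ, Y⟩ hz ⟨σ', Y'⟩ hz' h
    rw [mem_coe, mem_sigma] at hz hz'
    obtain ⟨_, hz⟩ := hz
    obtain ⟨_, hz'⟩ := hz'
    unfold GN at hz hz'
    rw [mem_filter] at hz hz'
    obtain ⟨_, _, hz⟩ := hz
    obtain ⟨_, _, hz'⟩ := hz'
    simp only [Prod.mk.injEq] at h hz hz'
    obtain ⟨h1, h2⟩ := h
    have h1' : ∀ c s, (!σ c && Y s c) = (!σ' c && Y' s c) := fun c s => congrFun (congrFun h1 c) s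
    have h2' : ∀ c s, (σ c && Y s c) = (σ' c && Y' s c) := fun c s => congrFun (congrFun h2 c) s
    have hσ : σ = σ' := by
      funext c
      rcases hc : σ c with _ | _
      · rcases hc' : σ' c with _ | _
        · rfl
        · obtain ⟨s, hs⟩ := hz' c hc'
          have := h2' c s
          rw [hc, hc', hs] at this
          simp at this
      · rcases hc' : σ' c with _ | _
        · obtain ⟨s, hs⟩ := hz c hc
          have := h2' c s
          rw [hc, hc', hs] at this
          simp at this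
        · rfl
    subst hσ
    have hY : Y = Y' := by
      funext s c
      have a1 := h1' c s
      have a2 := h2' c s
      rcases hc : σ c with _ | _
      · rw [hc] at a1; simpa using a1
      · rw [hc] at a2; simpa using a2
    subst hY
    rfl

end Pool.Agent.J4H95.RB
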