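import Pool.Agent.J4H95.RB.Num
import Pool.Agent.J4H63.DB.Transfer

set_option autoImplicit false
set_option synthInstance.maxSize 2000

/-!
# The regular cluster gadget of a bipartite graph
-/

namespace Pool.Agent.J4H95.RB

open Finset Pool.Agent.NPC Pool.Agent.H49R2.PC Pool.Agent.J4H63.DB

/-! ### Independent sets as pairs of functions -/

theorem numIS_fun {V V' : Type} [Fintype V] [DecidableEq V] [Fintype V'] [DecidableEq V'] (φ : V → ℕ) (ψ : V' → ℕ)
    (hφ : Function.Injective φ) (hψ : Function.Injective ψ) (H : BGr) (h1 : H.1.toFinset = univ.image φ)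
    (h2 : H.2.1.toFinset = univ.image ψ) {F : Finset ((V → Bool) × (V' → Bool))}
    (hF : ∀ x, x ∈ F ↔ ∀ v w, x.1 v = true → x.2 w = true → (φ v, ψ w) ∉ H.2.2) : numIS H = #F := by
  unfold numIS
  symm
  apply card_bij (fun (x : (V → Bool) × (V' → Bool)) _ =>
    ((({v | x.1 v = true} : Finset V).image φ, ({w | x.2 w = true} : Finset V').image ψ) : Finset ℕ × Finset ℕ))
  · intro x hx
    rw [hF] at hx
    rw [mem_indep, h1, h2]
    refine ⟨image_subset_image (subset_univ _), image_subset_image (subset_univ _), ?_⟩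
    intro u hu v hv
    rw [mem_image] at hu hv
    obtain ⟨a, ha, rfl⟩ := hu
    obtain ⟨b, hb, rfl⟩ := hv
    rw [mem_filter] at ha hb
    exact hx a b ha.2 hb.2
  · intro x _ y _ hxy
    simp only [Prod.mk.injEq] at hxy
    have e1 := image_injective hφ hxy.1
    have e2 := image_injective hψ hxy.2
    apply Prod.ext
    · funext v
      have := Finset.ext_iff.1 e1 v
      simp only [mem_filter, mem_univ, true_and] at this
      exact Bool.eq_iff_iff.2 this
    · funext v
      have := Finset.ext_iff.1 e2 v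
      simp only [mem_filter, mem_univ, true_and] at this
      exact Bool.eq_iff_iff.2 this
  · rintro ⟨A, B⟩ hp
    rw [mem_indep, h1, h2] at hp
    simp only at hp
    obtain ⟨hA, hB, hp⟩ := hp
    refine ⟨(fun v => decide (φ v ∈ A), fun w => decide (ψ w ∈ B)), ?_, ?_⟩
    · rw [hF]
      intro v w hv hw
      simp only [decide_eq_true_eq] at hv hw
      exact hp _ hv _ hw
    · simp only [decide_eq_true_eq, Prod.mk.injEq]
      constructor
      · ext a
        rw [mem_image]
        constructor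
        · rintro ⟨v, hv, rfl⟩
          rw [mem_filter] at hv
          exact hv.2
        · intro ha
          obtain ⟨v, _, rfl⟩ := mem_image.1 (hA ha)
          exact ⟨v, by rw [mem_filter]; exact ⟨mem_univ _, ha⟩, rfl⟩
      · ext a
        rw [mem_image]
        constructor
        · rintro ⟨v, hv, rfl⟩
          rw [mem_filter] at hv
          exact hv.2
        · intro ha
          obtain ⟨v, _, rfl⟩ := mem_image.1 (hB ha)
          exact ⟨v, by rw [mem_filter]; exact ⟨mem_univ _, ha⟩, rfl⟩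

/-! ### The gadget -/

/-- the size parameter -/
def SS (G : BGr) (ν : ℕ) : ℕ := 2 * nV G + G.2.2.length + ν + 10

/-- the number of the vertices of a cluster on each side -/
def Mm (k : ℕ) (G : BGr) (ν : ℕ) : ℕ := SS G ν ^ (k + 5)

/-- the arcs -/
def arcs0 (G : BGr) : List (ℕ × ℕ) :=
  G.2.2.map (fun e => (3 * e.1 + 1, 3 * e.2 + 2)) ++ G.1.map (fun u => (3 * u + 1, 3 * u + 3))

/-- the arcs, each repeated -/
def arcsM (G : BGr) (ν : ℕ) : List (ℕ × ℕ) := (arcs0 G).flatMap (fun a => List.replicate (10 * SS G ν) a)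

/-- the neighbour number `s'` of the left vertex `s` of the cluster `c` -/
def nbN (st : ℕ) (o : Option (ℕ × ℕ)) (c s s' : ℕ) : ℕ × ℕ :=
  match o with
  | none => (c, s')
  | some a => if c = a.1 ∧ s' = st then (a.2, s) else if c = a.2 ∧ s' = s then (0, s) else
      if c = 0 ∧ s' = s then (a.1, st) else (c, s')

/-- the clusters -/
def Qn (G : BGr) : List ℕ :=
  0 :: (G.1.map (fun u => 3 * u + 1) ++ (G.2.1.map (fun v => 3 * v + 2) ++ G.1.map (fun u => 3 * u + 3)))

/-- the vertices of a side -/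
def side (k : ℕ) (G : BGr) (ν : ℕ) : List ℕ :=
  (Qn G).flatMap (fun c => (List.range (Mm k G ν)).map (fun s => c * Mm k G ν + s))

/-- the edges -/
def edgesN (k : ℕ) (G : BGr) (ν : ℕ) : List (ℕ × ℕ) :=
  (Qn G).flatMap (fun c => (List.range (Mm k G ν)).flatMap (fun s => (List.range (Mm k G ν)).map (fun s' =>
    (c * Mm k G ν + s, (nbN (Mm k G ν - 1) (arcsM G ν)[s]? c s s').1 * Mm k G ν +
      (nbN (Mm k G ν - 1) (arcsM G ν)[s]? c s s').2))))

/-- the gadget -/
def gadR (k : ℕ) (G : BGr) (ν : ℕ) : BGr := (side k G ν, side k G ν, edgesN k G ν)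

/-! ### The types -/

/-- left vertices -/
abbrev PT (G : BGr) : Type := {u // u ∈ G.1.toFinset}

/-- right vertices -/
abbrev RT (G : BGr) : Type := {v // v ∈ G.2.1.toFinset}

variable {G : BGr}

/-- names -/
def nm : Cl (PT G) (RT G) → ℕ
  | none => 0
  | some (Sum.inl u) => 3 * u.1 + 1
  | some (Sum.inr (Sum.inl v)) => 3 * v.1 + 2
  | some (Sum.inr (Sum.inr w)) => 3 * w.1 + 3

theorem nm_inj : Function.Injective (nm (G := G)) := by
  intro a b h
  rcases a with _ | (u | (v | w)) <;> rcases b with _ | (u' | (v' | w')) <;> simp only [nm] at h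
  all_goals first
    | rfl
    | (exfalso; omega)
    | (simp only [Option.some.injEq, Sum.inl.injEq, Sum.inr.injEq]; apply Subtype.ext; omega)

theorem mem_Qn {x : ℕ} : x ∈ Qn G ↔ ∃ c : Cl (PT G) (RT G), nm c = x := by
  unfold Qn
  simp only [List.mem_cons, List.mem_append, List.mem_map]
  constructor
  · rintro (rfl | ⟨u, hu, rfl⟩ | ⟨v, hv, rfl⟩ | ⟨w, hw, rfl⟩)
    · exact ⟨none, rfl⟩
    · exact ⟨cU ⟨u, List.mem_toFinset.2 hu⟩, rfl⟩
    · exact ⟨cJ (Sum.inl ⟨v, List.mem_toFinset.2 hv⟩), rfl⟩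
    · exact ⟨cJ (Sum.inr ⟨w, List.mem_toFinset.2 hw⟩), rfl⟩
  · rintro ⟨c, rfl⟩
    rcases c with _ | (u | (v | w))
    · exact Or.inl rfl
    · exact Or.inr (Or.inl ⟨u.1, List.mem_toFinset.1 u.2, rfl⟩)
    · exact Or.inr (Or.inr (Or.inl ⟨v.1, List.mem_toFinset.1 v.2, rfl⟩))
    · exact Or.inr (Or.inr (Or.inr ⟨w.1, List.mem_toFinset.1 w.2, rfl⟩))

theorem card_PT (hG : IsBip G) : Fintype.card (PT G) = G.1.length := by
  rw [Fintype.card_coe, List.toFinset_card_of_nodup hG.1]

theorem card_RT (hG : IsBip G) : Fintype.card (RT G) = G.2.1.length := by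
  rw [Fintype.card_coe, List.toFinset_card_of_nodup hG.2.1]

theorem card_Cl (hG : IsBip G) : Fintype.card (Cl (PT G) (RT G)) = (Qn G).length := by
  unfold Qn
  rw [Fintype.card_option, Fintype.card_sum, Fintype.card_sum, card_PT hG, card_RT hG]
  simp only [List.length_cons, List.length_append, List.length_map]

theorem card_Cl_le (hG : IsBip G) (ν : ℕ) : Fintype.card (Cl (PT G) (RT G)) ≤ SS G ν := by
  rw [card_Cl hG]
  unfold Qn SS nV
  simp only [List.length_cons, List.length_append, List.length_map]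
  omega

/-- the arcs, typed -/
def arcsT (G : BGr) (hG : IsBip G) : List (PT G × (RT G ⊕ PT G)) :=
  (G.2.2.attach.map fun e => (⟨e.1.1, List.mem_toFinset.2 (hG.2.2 e.1 e.2).1⟩,
    Sum.inl ⟨e.1.2, List.mem_toFinset.2 (hG.2.2 e.1 e.2).2⟩)) ++
  (G.1.attach.map fun u => (⟨u.1, List.mem_toFinset.2 u.2⟩, Sum.inr ⟨u.1, List.mem_toFinset.2 u.2⟩))

theorem arcs0_eq (hG : IsBip G) : arcs0 G = (arcsT G hG).map (fun a => (nm (cU a.1 : Cl (PT G) (RT G)), nm (cJ a.2 : Cl (PT G) (RT G)))) := by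
  unfold arcs0 arcsT
  rw [List.map_append, List.map_map, List.map_map]
  congr 1
  · conv_lhs => rw [← List.attach_map_subtype_val G.2.2, List.map_map]
    rfl
  · conv_lhs => rw [← List.attach_map_subtype_val G.1, List.map_map]
    rfl

/-- the repeated arcs, typed -/
def arcsTM (G : BGr) (hG : IsBip G) (ν : ℕ) : List (PT G × (RT G ⊕ PT G)) :=
  (arcsT G hG).flatMap (fun a => List.replicate (10 * SS G ν) a)

theorem arcsM_eq (hG : IsBip G) (ν : ℕ) : arcsM G ν = (arcsTM G hG ν).map (fun a => (nm (cU a.1 : Cl (PT G) (RT G)), nm (cJ a.2 : Cl (PT G) (RT G)))) := by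
  unfold arcsM arcsTM
  rw [arcs0_eq hG, List.map_flatMap, List.flatMap_map]
  congr 1
  funext a
  rw [List.map_replicate]

theorem length_arcsT (hG : IsBip G) : (arcsT G hG).length = G.2.2.length + G.1.length := by
  unfold arcsT
  simp

theorem length_arcsTM (hG : IsBip G) (ν : ℕ) : (arcsTM G hG ν).length = (G.2.2.length + G.1.length) * (10 * SS G ν) := by
  unfold arcsTM
  rw [List.length_flatMap]
  simp only [List.length_replicate]
  rw [List.map_const', List.sum_replicate, length_arcsT, smul_eq_mul]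

theorem length_arcsTM_le (hG : IsBip G) (ν : ℕ) : (arcsTM G hG ν).length ≤ 10 * SS G ν ^ 2 := by
  rw [length_arcsTM]
  have : G.2.2.length + G.1.length ≤ SS G ν := by unfold SS nV; omega
  calc (G.2.2.length + G.1.length) * (10 * SS G ν) ≤ SS G ν * (10 * SS G ν) := Nat.mul_le_mul_right _ this
    _ = 10 * SS G ν ^ 2 := by ring

theorem SS_ge (G : BGr) (ν : ℕ) : 10 ≤ SS G ν := by unfold SS; omega

theorem Mm_big (k : ℕ) (G : BGr) (ν : ℕ) : 10 * SS G ν ^ 2 < Mm k G ν := by
  have h := SS_ge G ν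
  unfold Mm
  set S := SS G ν
  have h0 : 0 < S ^ 2 := by positivity
  calc 10 * S ^ 2 < 1000 * S ^ 2 := by omega
    _ = 10 ^ 3 * S ^ 2 := by norm_num
    _ ≤ S ^ 3 * S ^ 2 := Nat.mul_le_mul_right _ (Nat.pow_le_pow_left h 3)
    _ = S ^ 5 := by ring
    _ ≤ S ^ (k + 5) := Nat.pow_le_pow_right (by omega) (by omega)

/-- the arc of a column -/
def arF (k : ℕ) (G : BGr) (hG : IsBip G) (ν : ℕ) (s : Fin (Mm k G ν)) : Option (PT G × (RT G ⊕ PT G)) :=
  (arcsTM G hG ν)[s.1]?

/-- the star column -/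
def stF (k : ℕ) (G : BGr) (ν : ℕ) : Fin (Mm k G ν) := ⟨Mm k G ν - 1, by
  have := Mm_big k G ν
  omega⟩

/-- the edge relation -/
def EE (G : BGr) (u : PT G) (v : RT G) : Prop := (u.1, v.1) ∈ G.2.2

theorem count_block {α : Type} [DecidableEq α] (l : List α) (n M : ℕ) (hM : (l.flatMap fun a => List.replicate n a).length ≤ M) {a : α}
    (ha : a ∈ l) : n ≤ #{s : Fin M | (l.flatMap fun a => List.replicate n a)[s.1]? = some a} := by
  obtain ⟨l1, l2, rfl⟩ := List.append_of_mem ha
  set L1 := l1.flatMap fun a => List.replicate n a with hL1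
  set L2 := l2.flatMap fun a => List.replicate n a with hL2
  have e : ((l1 ++ a :: l2).flatMap fun a => List.replicate n a) = L1 ++ (List.replicate n a ++ L2) := by
    rw [List.flatMap_append, List.flatMap_cons]
  rw [e] at hM ⊢
  rw [List.length_append, List.length_append, List.length_replicate] at hM
  have h1 : #(univ : Finset (Fin n)) ≤ #{s : Fin M | (L1 ++ (List.replicate n a ++ L2))[s.1]? = some a} := by
    apply card_le_card_of_injOn (fun i : Fin n => (⟨L1.length + i.1, by omega⟩ : Fin M))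
    · intro i _
      rw [mem_coe, mem_filter]
      refine ⟨mem_univ _, ?_⟩
      simp only
      rw [List.getElem?_append_right (by omega)]
      rw [Nat.add_sub_cancel_left, List.getElem?_append_left (by rw [List.length_replicate]; exact i.2)]
      rw [List.getElem?_replicate]
      simp
    · intro i _ j _ h
      simp only [Fin.mk.injEq] at h
      exact Fin.ext (by omega)
  rwa [card_univ, Fintype.card_fin] at h1

theorem mem_arcsT (hG : IsBip G) (a : PT G × (RT G ⊕ PT G)) : a ∈ arcsT G hG ↔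
    (∃ v, a = (a.1, Sum.inl v) ∧ EE G a.1 v) ∨ a = (a.1, Sum.inr a.1) := by
  unfold arcsT
  rw [List.mem_append, List.mem_map, List.mem_map]
  constructor
  · rintro (⟨e, _, rfl⟩ | ⟨u, _, rfl⟩)
    · left
      exact ⟨⟨e.1.2, List.mem_toFinset.2 (hG.2.2 e.1 e.2).2⟩, rfl, e.2⟩
    · right
      rfl
  · rintro (⟨v, h1, h2⟩ | h)
    · left
      exact ⟨⟨(a.1.1, v.1), h2⟩, List.mem_attach _ _, h1.symm⟩
    · right
      exact ⟨⟨a.1.1, List.mem_toFinset.1 a.1.2⟩, List.mem_attach _ _, h.symm⟩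

theorem arcsF (k : ℕ) (hG : IsBip G) (ν : ℕ) : Arcs (EE G) (10 * SS G ν) (stF k G ν) (arF k G hG ν) := by
  have hlen : (arcsTM G hG ν).length ≤ Mm k G ν := (length_arcsTM_le hG ν).trans (Mm_big k G ν).le
  have hmem : ∀ s a, arF k G hG ν s = some a → a ∈ arcsT G hG := by
    intro s a h
    unfold arF at h
    have := List.mem_of_getElem? h
    unfold arcsTM at this
    rw [List.mem_flatMap] at this
    obtain ⟨b, hb, hb2⟩ := this
    rw [List.eq_of_mem_replicate hb2]
    exact hb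
  refine ⟨?_, ?_, ?_, ?_, ?_⟩
  · unfold arF stF
    rw [List.getElem?_eq_none]
    have := length_arcsTM_le hG ν
    have := Mm_big k G ν
    simp only
    omega
  · intro s u w h
    have := (mem_arcsT hG _).1 (hmem s _ h)
    rcases this with ⟨v, h1, _⟩ | h1
    · simp at h1
    · simpa using h1
  · intro s u v h
    have := (mem_arcsT hG _).1 (hmem s _ h)
    rcases this with ⟨v', h1, h2⟩ | h1
    · simp only [Prod.mk.injEq, Sum.inl.injEq, true_and] at h1
      rw [h1]
      exact h2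
    · simp at h1
  · intro u
    exact count_block (arcsT G hG) (10 * SS G ν) (Mm k G ν) hlen ((mem_arcsT hG _).2 (Or.inr rfl))
  · intro u v huv
    exact count_block (arcsT G hG) (10 * SS G ν) (Mm k G ν) hlen ((mem_arcsT hG _).2 (Or.inl ⟨v, rfl, huv⟩))

theorem card_arF (k : ℕ) (hG : IsBip G) (ν : ℕ) : #{s | arF k G hG ν s ≠ none} ≤ 10 * SS G ν ^ 2 := by
  refine le_trans ?_ (length_arcsTM_le hG ν)
  rw [← card_range (arcsTM G hG ν).length]
  apply card_le_card_of_injOn (fun s => s.1)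
  · intro s hs
    rw [mem_coe, mem_filter] at hs
    rw [mem_coe, mem_range]
    by_contra h
    simp only at h
    exact hs.2 (List.getElem?_eq_none (by omega))
  · intro a _ b _ h
    exact Fin.ext h

/-- the name of a vertex -/
def phi (k : ℕ) (G : BGr) (ν : ℕ) (p : Cl (PT G) (RT G) × Fin (Mm k G ν)) : ℕ := nm p.1 * Mm k G ν + p.2.1

theorem phi_inj (k : ℕ) (G : BGr) (ν : ℕ) : Function.Injective (phi k G ν) := by
  rintro ⟨c, s⟩ ⟨c', s'⟩ h
  unfold phi at h
  have h1 := congrArg (fun x => x / Mm k G ν) h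
  have h2 := congrArg (fun x => x % Mm k G ν) h
  beta_reduce at h1 h2
  have hM : 0 < Mm k G ν := lt_of_le_of_lt (Nat.zero_le _) (Mm_big k G ν)
  rw [Nat.mul_comm, Nat.mul_add_div hM, Nat.div_eq_of_lt s.2, Nat.mul_comm, Nat.mul_add_div hM, Nat.div_eq_of_lt s'.2] at h1
  rw [Nat.mul_comm, Nat.mul_add_mod, Nat.mod_eq_of_lt s.2, Nat.mul_comm, Nat.mul_add_mod, Nat.mod_eq_of_lt s'.2] at h2
  rw [Prod.mk.injEq]
  exact ⟨nm_inj (by omega), Fin.ext h2⟩

theorem mem_side {k : ℕ} {G : BGr} {ν x : ℕ} : x ∈ side k G ν ↔ ∃ p, phi k G ν p = x := by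
  unfold side
  simp only [List.mem_flatMap, List.mem_map, List.mem_range, mem_Qn, Prod.exists]
  constructor
  · rintro ⟨_, ⟨c, rfl⟩, s, hs, rfl⟩
    exact ⟨c, ⟨s, hs⟩, rfl⟩
  · rintro ⟨c, s, rfl⟩
    exact ⟨nm c, ⟨c, rfl⟩, s.1, s.2, rfl⟩

theorem side_toFinset {k : ℕ} {G : BGr} {ν : ℕ} : (side k G ν).toFinset = univ.image (phi k G ν) := by
  ext x
  rw [List.mem_toFinset, mem_side, mem_image]
  simp only [mem_univ, true_and]

theorem side_length (k : ℕ) (G : BGr) (ν : ℕ) : (side k G ν).length = (Qn G).length * Mm k G ν := by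
  unfold side
  rw [List.length_flatMap]
  simp only [List.length_map, List.length_range]
  rw [List.map_const', List.sum_replicate, smul_eq_mul]

theorem side_nodup (k : ℕ) (hG : IsBip G) (ν : ℕ) : (side k G ν).Nodup := by
  have h := Multiset.toFinset_card_eq_card_iff_nodup (m := (side k G ν : Multiset ℕ))
  rw [Multiset.coe_nodup] at h
  rw [← h]
  change #(side k G ν).toFinset = (side k G ν).length
  rw [side_toFinset, card_image_of_injective _ (phi_inj k G ν), card_univ, Fintype.card_prod, Fintype.card_fin, side_length, card_Cl hG]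

/-- the neighbour maps agree -/
theorem nbN_eq (k : ℕ) (hG : IsBip G) (ν : ℕ) (c : Cl (PT G) (RT G)) (s s' : Fin (Mm k G ν)) :
    nbN (Mm k G ν - 1) (arcsM G ν)[s.1]? (nm c) s.1 s'.1 =
      (nm (nb (stF k G ν) (arF k G hG ν) c s s').1, (nb (stF k G ν) (arF k G hG ν) c s s').2.1) := by
  rw [arcsM_eq hG, List.getElem?_map]
  unfold nb
  change nbN _ (Option.map _ (arF k G hG ν s)) _ _ _ = _
  rcases arF k G hG ν s with _ | ⟨u, j⟩
  · rfl
  · simp only [Option.map_some, nbN]
    have e1 : (nm c = nm (cU u : Cl (PT G) (RT G)) ∧ s'.1 = Mm k G ν - 1) ↔ (c = cU u ∧ s' = stF k G ν) := by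
      rw [nm_inj.eq_iff, Fin.ext_iff]; rfl
    have e2 : (nm c = nm (cJ j : Cl (PT G) (RT G)) ∧ s'.1 = s.1) ↔ (c = cJ j ∧ s' = s) := by
      rw [nm_inj.eq_iff, Fin.ext_iff]
    have e3 : (nm c = 0 ∧ s'.1 = s.1) ↔ (c = none ∧ s' = s) := by
      rw [show (0 : ℕ) = nm (none : Cl (PT G) (RT G)) from rfl, nm_inj.eq_iff, Fin.ext_iff]
    rw [if_congr e1 rfl (if_congr e2 rfl (if_congr e3 rfl rfl))]
    split_ifs <;> rfl

theorem mem_edgesN (k : ℕ) (hG : IsBip G) (ν : ℕ) (x y : ℕ) : (x, y) ∈ edgesN k G ν ↔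
    ∃ c s s', x = phi k G ν (c, s) ∧ y = phi k G ν (nb (stF k G ν) (arF k G hG ν) c s s') := by
  unfold edgesN
  simp only [List.mem_flatMap, List.mem_map, List.mem_range, mem_Qn, Prod.mk.injEq]
  constructor
  · rintro ⟨_, ⟨c, rfl⟩, s, hs, s', hs', rfl, rfl⟩
    refine ⟨c, ⟨s, hs⟩, ⟨s', hs'⟩, rfl, ?_⟩
    rw [nbN_eq k hG ν c ⟨s, hs⟩ ⟨s', hs'⟩]
    rfl
  · rintro ⟨c, s, s', rfl, rfl⟩
    refine ⟨nm c, ⟨c, rfl⟩, s.1, s.2, s'.1, s'.2, rfl, ?_⟩
    rw [nbN_eq k hG ν c s s']
    rfl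

theorem gadR_isBip (k : ℕ) (hG : IsBip G) (ν : ℕ) : IsBip (gadR k G ν) := by
  refine ⟨side_nodup k hG ν, side_nodup k hG ν, ?_⟩
  rintro ⟨x, y⟩ h
  change (x, y) ∈ edgesN k G ν at h
  rw [mem_edgesN k hG] at h
  obtain ⟨c, s, s', rfl, rfl⟩ := h
  exact ⟨mem_side.2 ⟨_, rfl⟩, mem_side.2 ⟨_, rfl⟩⟩

theorem numIS_gadR (k : ℕ) (hG : IsBip G) (ν : ℕ) :
    numIS (gadR k G ν) = #{x : Cfg (PT G) (RT G) (Fin (Mm k G ν)) | Ind (stF k G ν) (arF k G hG ν) x} := by
  rw [numIS_fun (phi k G ν) (phi k G ν) (phi_inj k G ν) (phi_inj k G ν) (gadR k G ν) side_toFinset side_toFinset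
    (F := {x | ∀ v w, x.1 v = true → x.2 w = true → (phi k G ν v, phi k G ν w) ∉ (gadR k G ν).2.2})
    (fun x => by rw [mem_filter]; simp only [mem_univ, true_and])]
  symm
  apply card_equiv ((Equiv.curry _ _ _).symm.prodCongr (Equiv.curry _ _ _).symm)
  intro x
  rw [mem_filter, mem_filter]
  simp only [mem_univ, true_and, Equiv.prodCongr_apply, Prod.map_fst, Prod.map_snd]
  unfold Ind
  constructor
  · rintro h ⟨c, s⟩ ⟨c', s'⟩ h1 h2 h3
    change (_, _) ∈ edgesN k G ν at h3
    rw [mem_edgesN k hG] at h3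
    obtain ⟨c1, s1, s2, e1, e2⟩ := h3
    have e1 := phi_inj k G ν e1
    have e2 := phi_inj k G ν e2
    rw [Prod.mk.injEq] at e1
    obtain ⟨rfl, rfl⟩ := e1
    refine h c s s2 h1 ?_
    rw [← e2]
    exact h2
  · intro h c s s' h1 h2
    refine h (c, s) (nb (stF k G ν) (arF k G hG ν) c s s') h1 h2 ?_
    change (_, _) ∈ edgesN k G ν
    rw [mem_edgesN k hG]
    exact ⟨c, s, s', rfl, rfl⟩

open Classical in
theorem numIS_base : numIS G = #(I0 (EE G)) := by
  refine numIS_fun (fun u : PT G => u.1) (fun v : RT G => v.1) Subtype.val_injective Subtype.val_injective G ?_ ?_ ?_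
  · ext x; simp
  · ext x; simp
  · intro x
    unfold I0
    rw [mem_filter]
    simp only [mem_univ, true_and]
    rfl

/-- the number of isolated right vertices -/
def isoN (G : BGr) : ℕ := (G.2.1.filter (fun v => !(G.2.2.any (fun e => decide (e.2 = v))))).length

open Classical in
theorem isoN_eq (hG : IsBip G) : isoN G = #(iso (EE G)) := by
  unfold isoN
  have hnd : (G.2.1.filter (fun v => !(G.2.2.any (fun e => decide (e.2 = v))))).Nodup := hG.2.1.filter _
  rw [← List.toFinset_card_of_nodup hnd]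
  symm
  apply card_bij (fun v _ => v.1)
  · intro v hv
    unfold iso at hv
    rw [mem_filter] at hv
    rw [List.mem_toFinset, List.mem_filter]
    refine ⟨List.mem_toFinset.1 v.2, ?_⟩
    rw [Bool.not_eq_true', List.any_eq_false]
    intro e he h
    rw [decide_eq_true_eq] at h
    refine hv.2 ⟨e.1, List.mem_toFinset.2 (hG.2.2 e he).1⟩ ?_
    unfold EE
    simp only
    rw [← h]
    exact he
  · intro u _ v _ h; exact Subtype.ext h
  · intro v hv
    rw [List.mem_toFinset, List.mem_filter] at hv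
    refine ⟨⟨v, List.mem_toFinset.2 hv.1⟩, ?_, rfl⟩
    unfold iso
    rw [mem_filter]
    refine ⟨mem_univ _, fun u hu => ?_⟩
    have h := hv.2
    rw [Bool.not_eq_true', List.any_eq_false] at h
    exact h _ hu (by simp)

/-! ### Degrees -/

variable {P R ι : Type} [DecidableEq P] [DecidableEq R] [DecidableEq ι] {st : ι} {ar : ι → Option (P × (R ⊕ P))}

/-- the inverse neighbour map -/
def bn (st : ι) (ar : ι → Option (P × (R ⊕ P))) (c' : Cl P R) (s s' : ι) : Cl P R × ι :=
  match ar s with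
  | none => (c', s')
  | some (u, j) => if c' = cJ j ∧ s' = s then (cU u, st) else if c' = none ∧ s' = s then (cJ j, s) else
      if c' = cU u ∧ s' = st then (none, s) else (c', s')

theorem bn_nb (hst : ar st = none) (c : Cl P R) (s s' : ι) :
    bn st ar (nb st ar c s s').1 s (nb st ar c s s').2 = (c, s') := by
  unfold bn nb
  rcases h : ar s with _ | ⟨u, j⟩
  · rfl
  · have hs : s ≠ st := by
      rintro rfl
      rw [hst] at h
      exact absurd h (by simp)
    simp only
    by_cases h1 : c = cU u ∧ s' = st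
    · obtain ⟨rfl, rfl⟩ := h1; simp
    · by_cases h2 : c = cJ j ∧ s' = s
      · obtain ⟨rfl, rfl⟩ := h2; simp
      · by_cases h3 : c = none ∧ s' = s
        · obtain ⟨rfl, rfl⟩ := h3; simp
        · rw [if_neg h1, if_neg h2, if_neg h3]
          simp only
          rw [if_neg h2, if_neg h3, if_neg h1]

theorem nb_bn (hst : ar st = none) (c : Cl P R) (s s' : ι) :
    nb st ar (bn st ar c s s').1 s (bn st ar c s s').2 = (c, s') := by
  unfold bn nb
  rcases h : ar s with _ | ⟨u, j⟩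
  · rfl
  · have hs : s ≠ st := by
      rintro rfl
      rw [hst] at h
      exact absurd h (by simp)
    simp only
    by_cases h1 : c = cU u ∧ s' = st
    · obtain ⟨rfl, rfl⟩ := h1; simp
    · by_cases h2 : c = cJ j ∧ s' = s
      · obtain ⟨rfl, rfl⟩ := h2; simp
      · by_cases h3 : c = none ∧ s' = s
        · obtain ⟨rfl, rfl⟩ := h3; simp
        · rw [if_neg h2, if_neg h3, if_neg h1]
          simp only
          rw [if_neg h1, if_neg h2, if_neg h3]

theorem degL_gadR (k : ℕ) (hG : IsBip G) (ν : ℕ) (x : ℕ) (hx : x ∈ (gadR k G ν).1) : degL (gadR k G ν) x = Mm k G ν := by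
  obtain ⟨⟨c, s⟩, rfl⟩ := mem_side.1 hx
  have hst := (arcsF k hG ν).star
  rw [degL_eq]
  have h1 : ((gadR k G ν).2.1.toFinset.filter (fun v => (phi k G ν (c, s), v) ∈ (gadR k G ν).2.2)) =
      univ.image (fun s' => phi k G ν (nb (stF k G ν) (arF k G hG ν) c s s')) := by
    ext y
    rw [mem_filter, mem_image]
    change y ∈ (side k G ν).toFinset ∧ (_, y) ∈ edgesN k G ν ↔ _
    rw [mem_edgesN k hG, List.mem_toFinset]
    constructor
    · rintro ⟨_, c1, s1, s2, e1, e2⟩
      have e1 := phi_inj k G ν e1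
      rw [Prod.mk.injEq] at e1
      obtain ⟨rfl, rfl⟩ := e1
      exact ⟨s2, mem_univ _, e2.symm⟩
    · rintro ⟨s2, _, rfl⟩
      exact ⟨mem_side.2 ⟨_, rfl⟩, c, s, s2, rfl, rfl⟩
  rw [h1, card_image_of_injective, card_univ, Fintype.card_fin]
  intro s1 s2 h
  have h := phi_inj k G ν h
  have e1 := bn_nb hst c s s1
  have e2 := bn_nb hst c s s2
  rw [h] at e1
  exact (Prod.mk.inj (e1.symm.trans e2)).2

theorem degR_gadR (k : ℕ) (hG : IsBip G) (ν : ℕ) (x : ℕ) (hx : x ∈ (gadR k G ν).2.1) : degR (gadR k G ν) x = Mm k G ν := by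
  obtain ⟨⟨c, s⟩, rfl⟩ := mem_side.1 hx
  have hst := (arcsF k hG ν).star
  rw [degR_eq]
  have h1 : ((gadR k G ν).1.toFinset.filter (fun v => (v, phi k G ν (c, s)) ∈ (gadR k G ν).2.2)) =
      univ.image (fun s' => phi k G ν ((bn (stF k G ν) (arF k G hG ν) c s' s).1, s')) := by
    ext y
    rw [mem_filter, mem_image]
    change y ∈ (side k G ν).toFinset ∧ (y, _) ∈ edgesN k G ν ↔ _
    rw [mem_edgesN k hG, List.mem_toFinset]
    constructor
    · rintro ⟨_, c1, s1, s2, e1, e2⟩
      have e2 := phi_inj k G ν e2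
      refine ⟨s1, mem_univ _, ?_⟩
      rw [e1]
      congr 2
      have := bn_nb hst c1 s1 s2
      rw [← e2] at this
      simp only at this
      rw [this]
    · rintro ⟨s1, _, rfl⟩
      refine ⟨mem_side.2 ⟨_, rfl⟩, (bn (stF k G ν) (arF k G hG ν) c s1 s).1, s1, (bn (stF k G ν) (arF k G hG ν) c s1 s).2, rfl, ?_⟩
      rw [nb_bn hst]
  rw [h1, card_image_of_injective, card_univ, Fintype.card_fin]
  intro s1 s2 h
  exact (Prod.mk.inj (phi_inj k G ν h)).2

/-- exactly regular, of degree at least `n ^ (1 - 1 / (k + 1))`, where `n` is the number of the vertices of each part -/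
def RegDense (k : ℕ) (G : BGr) : Prop :=
  G.1.length = G.2.1.length ∧ ∃ d : ℕ, (∀ u ∈ G.1, degL G u = d) ∧ (∀ v ∈ G.2.1, degR G v = d) ∧
    G.1.length ^ k ≤ d ^ (k + 1)

theorem gadR_reg (k : ℕ) (hG : IsBip G) (ν : ℕ) : RegDense k (gadR k G ν) := by
  have hQ : (Qn G).length ≤ SS G ν := by rw [← card_Cl hG]; exact card_Cl_le hG ν
  have hS := SS_ge G ν
  have h1 : (gadR k G ν).1.length ^ k ≤ Mm k G ν ^ (k + 1) := by
    change (side k G ν).length ^ k ≤ _
    rw [side_length, mul_pow, pow_succ, mul_comm]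
    apply Nat.mul_le_mul_left
    calc (Qn G).length ^ k ≤ SS G ν ^ k := Nat.pow_le_pow_left hQ _
      _ ≤ SS G ν ^ (k + 5) := Nat.pow_le_pow_right (by omega) (by omega)
  exact ⟨rfl, Mm k G ν, degL_gadR k hG ν, degR_gadR k hG ν, h1⟩

end Pool.Agent.J4H95.RB
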