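import Pool.Agent.J4H95.RB.Trans

set_option autoImplicit false
set_option synthInstance.maxSize 2000

/-!
# The regular cluster gadget with clusters of any size
-/

namespace Pool.Agent.J4H95.RB

open Finset Pool.Agent.NPC Pool.Agent.H49R2.PC Pool.Agent.J4H63.DB

/-- the vertices of a side -/
def sideP (M : ℕ) (G : BGr) : List ℕ :=
  (Qn G).flatMap (fun c => (List.range (M)).map (fun s => c * M + s))

/-- the edges -/
def edgesP (M : ℕ) (G : BGr) (ν : ℕ) : List (ℕ × ℕ) :=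
  (Qn G).flatMap (fun c => (List.range (M)).flatMap (fun s => (List.range (M)).map (fun s' =>
    (c * M + s, (nbN (M - 1) (arcsM G ν)[s]? c s s').1 * M +
      (nbN (M - 1) (arcsM G ν)[s]? c s s').2))))

/-- the gadget -/
def gadP (M : ℕ) (G : BGr) (ν : ℕ) : BGr := (sideP M G, sideP M G, edgesP M G ν)

variable {G : BGr} {M : ℕ}

/-- the arc of a column -/
def arP (M : ℕ) (G : BGr) (hG : IsBip G) (ν : ℕ) (s : Fin M) : Option (PT G × (RT G ⊕ PT G)) :=
  (arcsTM G hG ν)[s.1]?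

/-- the star column -/
def stP (M : ℕ) (h0 : 0 < M) : Fin M := ⟨M - 1, by omega⟩

theorem arcsP (h0 : 0 < M) (hG : IsBip G) (ν : ℕ) (hM : 10 * SS G ν ^ 2 < M) : Arcs (EE G) (10 * SS G ν) (stP M h0) (arP M G hG ν) := by
  have hlen : (arcsTM G hG ν).length ≤ M := (length_arcsTM_le hG ν).trans (hM).le
  have hmem : ∀ s a, arP M G hG ν s = some a → a ∈ arcsT G hG := by
    intro s a h
    unfold arP at h
    have := List.mem_of_getElem? h
    unfold arcsTM at this
    rw [List.mem_flatMap] at this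
    obtain ⟨b, hb, hb2⟩ := this
    rw [List.eq_of_mem_replicate hb2]
    exact hb
  refine ⟨?_, ?_, ?_, ?_, ?_⟩
  · unfold arP stP
    rw [List.getElem?_eq_none]
    have := length_arcsTM_le hG ν
    have := hM
    simp only
    omega
  · intro s u w h
    have := (mem_arcsT hG _).1 (hmem s _ h)
    rcases this with ⟨v, h1, _⟩ | h1
    · simp at h1
    · simpa using h1
  · intro s u v h
    have := (mem_arcsT hG _).1 (hmem s _ h)
    rcases this with ⟨v', h1, h2⟩ | h1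
    · simp only [Prod.mk.injEq, Sum.inl.injEq, true_and] at h1
      rw [h1]
      exact h2
    · simp at h1
  · intro u
    exact count_block (arcsT G hG) (10 * SS G ν) (M) hlen ((mem_arcsT hG _).2 (Or.inr rfl))
  · intro u v huv
    exact count_block (arcsT G hG) (10 * SS G ν) (M) hlen ((mem_arcsT hG _).2 (Or.inl ⟨v, rfl, huv⟩))

theorem card_arP (M : ℕ) (hG : IsBip G) (ν : ℕ) : #{s | arP M G hG ν s ≠ none} ≤ 10 * SS G ν ^ 2 := by
  refine le_trans ?_ (length_arcsTM_le hG ν)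
  rw [← card_range (arcsTM G hG ν).length]
  apply card_le_card_of_injOn (fun s => s.1)
  · intro s hs
    rw [mem_coe, mem_filter] at hs
    rw [mem_coe, mem_range]
    by_contra h
    simp only at h
    exact hs.2 (List.getElem?_eq_none (by omega))
  · intro a _ b _ h
    exact Fin.ext h

/-- the name of a vertex -/
def phiP (M : ℕ) (G : BGr) (p : Cl (PT G) (RT G) × Fin (M)) : ℕ := nm p.1 * M + p.2.1

theorem phiP_inj (M : ℕ) (G : BGr) : Function.Injective (phiP M G) := by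
  rintro ⟨c, s⟩ ⟨c', s'⟩ h
  unfold phiP at h
  have h1 := congrArg (fun x => x / M) h
  have h2 := congrArg (fun x => x % M) h
  beta_reduce at h1 h2
  have hM : 0 < M := lt_of_le_of_lt (Nat.zero_le _) s.2
  rw [Nat.mul_comm, Nat.mul_add_div hM, Nat.div_eq_of_lt s.2, Nat.mul_comm, Nat.mul_add_div hM, Nat.div_eq_of_lt s'.2] at h1
  rw [Nat.mul_comm, Nat.mul_add_mod, Nat.mod_eq_of_lt s.2, Nat.mul_comm, Nat.mul_add_mod, Nat.mod_eq_of_lt s'.2] at h2
  rw [Prod.mk.injEq]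
  exact ⟨nm_inj (by omega), Fin.ext h2⟩

theorem mem_sideP {M : ℕ} {G : BGr} {x : ℕ} : x ∈ sideP M G ↔ ∃ p, phiP M G p = x := by
  unfold sideP
  simp only [List.mem_flatMap, List.mem_map, List.mem_range, mem_Qn, Prod.exists]
  constructor
  · rintro ⟨_, ⟨c, rfl⟩, s, hs, rfl⟩
    exact ⟨c, ⟨s, hs⟩, rfl⟩
  · rintro ⟨c, s, rfl⟩
    exact ⟨nm c, ⟨c, rfl⟩, s.1, s.2, rfl⟩

theorem sideP_toFinset {M : ℕ} {G : BGr} : (sideP M G).toFinset = univ.image (phiP M G) := by
  ext x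
  rw [List.mem_toFinset, mem_sideP, mem_image]
  simp only [mem_univ, true_and]

theorem sideP_length (M : ℕ) (G : BGr) : (sideP M G).length = (Qn G).length * M := by
  unfold sideP
  rw [List.length_flatMap]
  simp only [List.length_map, List.length_range]
  rw [List.map_const', List.sum_replicate, smul_eq_mul]

theorem sideP_nodup (M : ℕ) (hG : IsBip G) : (sideP M G).Nodup := by
  have h := Multiset.toFinset_card_eq_card_iff_nodup (m := (sideP M G : Multiset ℕ))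
  rw [Multiset.coe_nodup] at h
  rw [← h]
  change #(sideP M G).toFinset = (sideP M G).length
  rw [sideP_toFinset, card_image_of_injective _ (phiP_inj M G), card_univ, Fintype.card_prod, Fintype.card_fin, sideP_length, card_Cl hG]

/-- the neighbour maps agree -/
theorem nbP_eq (h0 : 0 < M) (hG : IsBip G) (ν : ℕ) (c : Cl (PT G) (RT G)) (s s' : Fin (M)) :
    nbN (M - 1) (arcsM G ν)[s.1]? (nm c) s.1 s'.1 =
      (nm (nb (stP M h0) (arP M G hG ν) c s s').1, (nb (stP M h0) (arP M G hG ν) c s s').2.1) := by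
  rw [arcsM_eq hG, List.getElem?_map]
  unfold nb
  change nbN _ (Option.map _ (arP M G hG ν s)) _ _ _ = _
  rcases arP M G hG ν s with _ | ⟨u, j⟩
  · rfl
  · simp only [Option.map_some, nbN]
    have e1 : (nm c = nm (cU u : Cl (PT G) (RT G)) ∧ s'.1 = M - 1) ↔ (c = cU u ∧ s' = stP M h0) := by
      rw [nm_inj.eq_iff, Fin.ext_iff]; rfl
    have e2 : (nm c = nm (cJ j : Cl (PT G) (RT G)) ∧ s'.1 = s.1) ↔ (c = cJ j ∧ s' = s) := by
      rw [nm_inj.eq_iff, Fin.ext_iff]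
    have e3 : (nm c = 0 ∧ s'.1 = s.1) ↔ (c = none ∧ s' = s) := by
      rw [show (0 : ℕ) = nm (none : Cl (PT G) (RT G)) from rfl, nm_inj.eq_iff, Fin.ext_iff]
    rw [if_congr e1 rfl (if_congr e2 rfl (if_congr e3 rfl rfl))]
    split_ifs <;> rfl

theorem mem_edgesP (h0 : 0 < M) (hG : IsBip G) (ν : ℕ) (x y : ℕ) : (x, y) ∈ edgesP M G ν ↔
    ∃ c s s', x = phiP M G (c, s) ∧ y = phiP M G (nb (stP M h0) (arP M G hG ν) c s s') := by
  unfold edgesP
  simp only [List.mem_flatMap, List.mem_map, List.mem_range, mem_Qn, Prod.mk.injEq]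
  constructor
  · rintro ⟨_, ⟨c, rfl⟩, s, hs, s', hs', rfl, rfl⟩
    refine ⟨c, ⟨s, hs⟩, ⟨s', hs'⟩, rfl, ?_⟩
    rw [nbP_eq h0 hG ν c ⟨s, hs⟩ ⟨s', hs'⟩]
    rfl
  · rintro ⟨c, s, s', rfl, rfl⟩
    refine ⟨nm c, ⟨c, rfl⟩, s.1, s.2, s'.1, s'.2, rfl, ?_⟩
    rw [nbP_eq h0 hG ν c s s']
    rfl

theorem gadP_isBip (h0 : 0 < M) (hG : IsBip G) (ν : ℕ) : IsBip (gadP M G ν) := by
  refine ⟨sideP_nodup M hG, sideP_nodup M hG, ?_⟩
  rintro ⟨x, y⟩ h
  change (x, y) ∈ edgesP M G ν at h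
  rw [mem_edgesP h0 hG] at h
  obtain ⟨c, s, s', rfl, rfl⟩ := h
  exact ⟨mem_sideP.2 ⟨_, rfl⟩, mem_sideP.2 ⟨_, rfl⟩⟩

theorem numIS_gadP (h0 : 0 < M) (hG : IsBip G) (ν : ℕ) :
    numIS (gadP M G ν) = #{x : Cfg (PT G) (RT G) (Fin (M)) | Ind (stP M h0) (arP M G hG ν) x} := by
  rw [numIS_fun (phiP M G) (phiP M G) (phiP_inj M G) (phiP_inj M G) (gadP M G ν) sideP_toFinset sideP_toFinset
    (F := {x | ∀ v w, x.1 v = true → x.2 w = true → (phiP M G v, phiP M G w) ∉ (gadP M G ν).2.2})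
    (fun x => by rw [mem_filter]; simp only [mem_univ, true_and])]
  symm
  apply card_equiv ((Equiv.curry _ _ _).symm.prodCongr (Equiv.curry _ _ _).symm)
  intro x
  rw [mem_filter, mem_filter]
  simp only [mem_univ, true_and, Equiv.prodCongr_apply, Prod.map_fst, Prod.map_snd]
  unfold Ind
  constructor
  · rintro h ⟨c, s⟩ ⟨c', s'⟩ h1 h2 h3
    change (_, _) ∈ edgesP M G ν at h3
    rw [mem_edgesP h0 hG] at h3
    obtain ⟨c1, s1, s2, e1, e2⟩ := h3
    have e1 := phiP_inj M G e1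
    have e2 := phiP_inj M G e2
    rw [Prod.mk.injEq] at e1
    obtain ⟨rfl, rfl⟩ := e1
    refine h c s s2 h1 ?_
    rw [← e2]
    exact h2
  · intro h c s s' h1 h2
    refine h (c, s) (nb (stP M h0) (arP M G hG ν) c s s') h1 h2 ?_
    change (_, _) ∈ edgesP M G ν
    rw [mem_edgesP h0 hG]
    exact ⟨c, s, s', rfl, rfl⟩

theorem degL_gadP (h0 : 0 < M) (hG : IsBip G) (ν : ℕ) (hM : 10 * SS G ν ^ 2 < M) (x : ℕ) (hx : x ∈ (gadP M G ν).1) : degL (gadP M G ν) x = M := by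
  obtain ⟨⟨c, s⟩, rfl⟩ := mem_sideP.1 hx
  have hst := (arcsP h0 hG ν hM).star
  rw [degL_eq]
  have h1 : ((gadP M G ν).2.1.toFinset.filter (fun v => (phiP M G (c, s), v) ∈ (gadP M G ν).2.2)) =
      univ.image (fun s' => phiP M G (nb (stP M h0) (arP M G hG ν) c s s')) := by
    ext y
    rw [mem_filter, mem_image]
    change y ∈ (sideP M G).toFinset ∧ (_, y) ∈ edgesP M G ν ↔ _
    rw [mem_edgesP h0 hG, List.mem_toFinset]
    constructor
    · rintro ⟨_, c1, s1, s2, e1, e2⟩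
      have e1 := phiP_inj M G e1
      rw [Prod.mk.injEq] at e1
      obtain ⟨rfl, rfl⟩ := e1
      exact ⟨s2, mem_univ _, e2.symm⟩
    · rintro ⟨s2, _, rfl⟩
      exact ⟨mem_sideP.2 ⟨_, rfl⟩, c, s, s2, rfl, rfl⟩
  rw [h1, card_image_of_injective, card_univ, Fintype.card_fin]
  intro s1 s2 h
  have h := phiP_inj M G h
  have e1 := bn_nb hst c s s1
  have e2 := bn_nb hst c s s2
  rw [h] at e1
  exact (Prod.mk.inj (e1.symm.trans e2)).2

theorem degR_gadP (h0 : 0 < M) (hG : IsBip G) (ν : ℕ) (hM : 10 * SS G ν ^ 2 < M) (x : ℕ) (hx : x ∈ (gadP M G ν).2.1) : degR (gadP M G ν) x = M := by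
  obtain ⟨⟨c, s⟩, rfl⟩ := mem_sideP.1 hx
  have hst := (arcsP h0 hG ν hM).star
  rw [degR_eq]
  have h1 : ((gadP M G ν).1.toFinset.filter (fun v => (v, phiP M G (c, s)) ∈ (gadP M G ν).2.2)) =
      univ.image (fun s' => phiP M G ((bn (stP M h0) (arP M G hG ν) c s' s).1, s')) := by
    ext y
    rw [mem_filter, mem_image]
    change y ∈ (sideP M G).toFinset ∧ (y, _) ∈ edgesP M G ν ↔ _
    rw [mem_edgesP h0 hG, List.mem_toFinset]
    constructor
    · rintro ⟨_, c1, s1, s2, e1, e2⟩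
      have e2 := phiP_inj M G e2
      refine ⟨s1, mem_univ _, ?_⟩
      rw [e1]
      congr 2
      have := bn_nb hst c1 s1 s2
      rw [← e2] at this
      simp only at this
      rw [this]
    · rintro ⟨s1, _, rfl⟩
      refine ⟨mem_sideP.2 ⟨_, rfl⟩, (bn (stP M h0) (arP M G hG ν) c s1 s).1, s1, (bn (stP M h0) (arP M G hG ν) c s1 s).2, rfl, ?_⟩
      rw [nb_bn hst]
  rw [h1, card_image_of_injective, card_univ, Fintype.card_fin]
  intro s1 s2 h
  exact (Prod.mk.inj (phiP_inj M G h)).2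


end Pool.Agent.J4H95.RB
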