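import Pool.Agent.J4H95.RB.Total
import Pool.Agent.H49R2.PC.Defs

set_option autoImplicit false

/-!
# The regular cluster gadget: numbers
-/

namespace Pool.Agent.J4H95.RB

open Finset Pool.Agent.H49R2.PC

theorem two_j (j : ℕ) (hj : 3 ≤ j) : 2 * j + 1 ≤ 2 ^ j := by
  induction j, hj using Nat.le_induction with
  | base => norm_num
  | succ j hj ih => rw [pow_succ]; omega

theorem numA {S q N K k : ℕ} (hS : 10 ≤ S) (hq : q ≤ S) (hN : N ≤ S) (hK : K ≤ 10 * S ^ 2) :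
    64 * N * q * S ^ (k + 5) * 3 ^ (q - 1) * 2 ^ K ≤ 2 ^ (S ^ (k + 5)) := by
  set M := S ^ (k + 5) with hM
  have hM1 : 1000 * S ^ 2 ≤ M := by
    calc 1000 * S ^ 2 = 10 ^ 3 * S ^ 2 := by norm_num
      _ ≤ S ^ 3 * S ^ 2 := Nat.mul_le_mul_right _ (Nat.pow_le_pow_left hS 3)
      _ = S ^ 5 := by ring
      _ ≤ M := Nat.pow_le_pow_right (by omega) (by omega)
  have hSS : 10 * S ≤ S ^ 2 := by rw [pow_two]; exact Nat.mul_le_mul_right _ hS
  have hM2 : M ≤ 2 ^ (M / 2) := by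
    have := two_j (M / 2) (by omega)
    omega
  have h64 : 64 ≤ 2 ^ S := by
    calc 64 = 2 ^ 6 := by norm_num
      _ ≤ 2 ^ S := Nat.pow_le_pow_right (by norm_num) (by omega)
  have hlt : S ≤ 2 ^ S := Nat.lt_two_pow_self.le
  have h3 : 3 ^ (q - 1) ≤ 2 ^ (2 * S) := by
    calc 3 ^ (q - 1) ≤ 4 ^ (q - 1) := Nat.pow_le_pow_left (by norm_num) _
      _ ≤ 4 ^ S := Nat.pow_le_pow_right (by norm_num) (by omega)
      _ = 2 ^ (2 * S) := by rw [pow_mul]; norm_num
  calc 64 * N * q * M * 3 ^ (q - 1) * 2 ^ K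
      ≤ 2 ^ S * 2 ^ S * 2 ^ S * 2 ^ (M / 2) * 2 ^ (2 * S) * 2 ^ (10 * S ^ 2) := by
        apply Nat.mul_le_mul _ (Nat.pow_le_pow_right (by norm_num) hK)
        apply Nat.mul_le_mul _ h3
        apply Nat.mul_le_mul _ hM2
        apply Nat.mul_le_mul _ (hq.trans hlt)
        exact Nat.mul_le_mul h64 (hN.trans hlt)
    _ = 2 ^ (S + S + S + M / 2 + 2 * S + 10 * S ^ 2) := by simp only [pow_add]
    _ ≤ 2 ^ M := Nat.pow_le_pow_right (by norm_num) (by omega)

theorem numB {S q p N : ℕ} (hS : 10 ≤ S) (hq : q ≤ S) (hp : p ≤ S) (hN : N ≤ S) (hN0 : 0 < N) {r : ℕ} (hr : 10 * S ≤ r) :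
    (2 : ℝ) ^ q * (p * (1 / 2) ^ r) ≤ 1 / (64 * N) := by
  have hlt : (S : ℝ) ≤ 2 ^ S := by exact_mod_cast Nat.lt_two_pow_self.le
  have hN' : (0 : ℝ) < N := by exact_mod_cast hN0
  have h64 : (64 : ℝ) ≤ 2 ^ S := by
    calc (64 : ℝ) = 2 ^ 6 := by norm_num
      _ ≤ 2 ^ S := pow_le_pow_right₀ (by norm_num) (by omega)
  have h1 : (2 : ℝ) ^ q ≤ 2 ^ S := pow_le_pow_right₀ (by norm_num) hq
  have h2 : (p : ℝ) ≤ 2 ^ S := (by exact_mod_cast hp : (p : ℝ) ≤ S).trans hlt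
  have h3 : (N : ℝ) ≤ 2 ^ S := (by exact_mod_cast hN : (N : ℝ) ≤ S).trans hlt
  have h4 : (1 / 2 : ℝ) ^ r ≤ (1 / 2) ^ (4 * S) := pow_le_pow_of_le_one (by norm_num) (by norm_num) (by omega)
  rw [le_div_iff₀ (by positivity)]
  calc (2 : ℝ) ^ q * (p * (1 / 2) ^ r) * (64 * N)
      ≤ 2 ^ S * (2 ^ S * (1 / 2) ^ (4 * S)) * (2 ^ S * 2 ^ S) := by gcongr
    _ = (2 * 2 * 2 * 2 * (1 / 2) ^ 4) ^ S := by
        rw [mul_pow, mul_pow, mul_pow, mul_pow, ← pow_mul]; ring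
    _ = 1 := by norm_num

theorem numC {S q N : ℕ} (hS : 10 ≤ S) (hq : q ≤ S) (hN : N ≤ S) (hN0 : 0 < N) :
    (2 : ℝ) ^ q * (3 / 4) ^ (10 * S) ≤ 1 / (64 * N) := by
  have hlt : (S : ℝ) ≤ 2 ^ S := by exact_mod_cast Nat.lt_two_pow_self.le
  have hN' : (0 : ℝ) < N := by exact_mod_cast hN0
  have h64 : (64 : ℝ) ≤ 2 ^ S := by
    calc (64 : ℝ) = 2 ^ 6 := by norm_num
      _ ≤ 2 ^ S := pow_le_pow_right₀ (by norm_num) (by omega)
  have h1 : (2 : ℝ) ^ q ≤ 2 ^ S := pow_le_pow_right₀ (by norm_num) hq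
  have h3 : (N : ℝ) ≤ 2 ^ S := (by exact_mod_cast hN : (N : ℝ) ≤ S).trans hlt
  have h4 : (3 / 4 : ℝ) ^ (10 * S) ≤ (1 / 16) ^ S := by
    rw [pow_mul]
    exact pow_le_pow_left₀ (by positivity) (by norm_num) _
  rw [le_div_iff₀ (by positivity)]
  calc (2 : ℝ) ^ q * (3 / 4) ^ (10 * S) * (64 * N)
      ≤ 2 ^ S * (1 / 16) ^ S * (2 ^ S * 2 ^ S) := by gcongr
    _ = (2 * (1 / 16) * (2 * 2)) ^ S := by
        rw [mul_pow, mul_pow, mul_pow]
    _ ≤ 1 := by apply pow_le_one₀ <;> norm_num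

variable {P R ι : Type} [Fintype P] [DecidableEq P] [Fintype R] [DecidableEq R] [Fintype ι] [DecidableEq ι]
  {E : P → R → Prop} {m : ℕ} {st : ι} {ar : ι → Option (P × (R ⊕ P))}

/-- the number of the independent sets of the gadget -/
theorem main_est {S N k : ℕ} (hS : 10 ≤ S) (hq : Fintype.card (Cl P R) ≤ S) (hp : Fintype.card P ≤ S) (hN : N ≤ S) (hN0 : 0 < N)
    (hK : #{s | ar s ≠ none} ≤ 10 * S ^ 2) (hM : Fintype.card ι = S ^ (k + 5)) (hA : Arcs E (10 * S) st ar) :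
    (#{x : Cfg P R ι | Ind st ar x} : ℝ) ≤ WW P R ι * (#(I0 E) + 2 ^ #(iso E) + 1 / (16 * N)) ∧
    WW P R ι * (#(I0 E) + 2 ^ #(iso E) - 1 / (16 * N)) ≤ (#{x : Cfg P R ι | Ind st ar x} : ℝ) := by
  have hW : 0 < WW P R ι := by unfold WW; positivity
  have hN' : (0 : ℝ) < N := by exact_mod_cast hN0
  have hA1 := numA (k := k) hS hq hN hK
  rw [← hM] at hA1
  have hq1 : 1 ≤ Fintype.card (Cl P R) := Fintype.card_pos
  have hM1 : 10 * S ≤ Fintype.card ι := by
    rw [hM]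
    calc 10 * S ≤ S * S := Nat.mul_le_mul_right _ hS
      _ = S ^ 2 := by ring
      _ ≤ S ^ (k + 5) := Nat.pow_le_pow_right (by omega) (by omega)
  have hA2 : 2 ^ #{s | ar s ≠ none} * Fintype.card ι ≤ 2 ^ Fintype.card ι := by
    refine le_trans ?_ hA1
    have h3 : 1 ≤ 3 ^ (Fintype.card (Cl P R) - 1) := Nat.one_le_pow _ _ (by norm_num)
    calc 2 ^ #{s | ar s ≠ none} * Fintype.card ι = 1 * 1 * 1 * Fintype.card ι * 1 * 2 ^ #{s | ar s ≠ none} := by ring
      _ ≤ _ := by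
        apply Nat.mul_le_mul_right
        apply Nat.mul_le_mul _ h3
        apply Nat.mul_le_mul_right
        exact Nat.mul_le_mul (Nat.mul_le_mul (by norm_num) hN0) hq1
  constructor
  · refine (total_le hA (by omega) hA2).trans ?_
    have h1 := numB hS hq hp hN hN0 (le_refl (10 * S))
    have h2 := numC hS hq hN hN0
    have h3 : (Fintype.card (Cl P R) : ℝ) * (2 ^ #{s | ar s ≠ none} * Fintype.card ι *
        (3 * 2 ^ Fintype.card ι) ^ (Fintype.card (Cl P R) - 1)) ≤ WW P R ι * (1 / (64 * N)) := by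
      rw [mul_one_div, le_div_iff₀ (by positivity)]
      have h4 : Fintype.card (Cl P R) * (2 ^ #{s | ar s ≠ none} * Fintype.card ι *
        (3 * 2 ^ Fintype.card ι) ^ (Fintype.card (Cl P R) - 1)) * (64 * N) ≤ 2 ^ (Fintype.card ι * Fintype.card (Cl P R)) := by
        calc Fintype.card (Cl P R) * (2 ^ #{s | ar s ≠ none} * Fintype.card ι *
              (3 * 2 ^ Fintype.card ι) ^ (Fintype.card (Cl P R) - 1)) * (64 * N)
            = 64 * N * Fintype.card (Cl P R) * Fintype.card ι * 3 ^ (Fintype.card (Cl P R) - 1) * 2 ^ #{s | ar s ≠ none} *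
                (2 ^ Fintype.card ι) ^ (Fintype.card (Cl P R) - 1) := by rw [mul_pow]; ring
          _ ≤ 2 ^ Fintype.card ι * (2 ^ Fintype.card ι) ^ (Fintype.card (Cl P R) - 1) := Nat.mul_le_mul_right _ hA1
          _ = (2 ^ Fintype.card ι) ^ (Fintype.card (Cl P R) - 1 + 1) := by rw [pow_succ]; ring
          _ = 2 ^ (Fintype.card ι * Fintype.card (Cl P R)) := by rw [Nat.sub_add_cancel hq1, ← pow_mul]
      unfold WW
      exact_mod_cast h4
    have h5 : (1 : ℝ) / (16 * N) = 4 * (1 / (64 * N)) := by field_simp; norm_num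
    have h6 : (0 : ℝ) < 1 / (64 * N) := by positivity
    rw [h5]
    set X : ℝ := (2 : ℝ) ^ Fintype.card (Cl P R) * (Fintype.card P * (1 / 2) ^ (10 * S))
    set Y : ℝ := (2 : ℝ) ^ Fintype.card (Cl P R) * (3 / 4) ^ (10 * S)
    set Z : ℝ := (1 : ℝ) / (64 * N)
    nlinarith [mul_le_mul_of_nonneg_left h1 hW.le, mul_le_mul_of_nonneg_left h2 hW.le]
  · refine le_trans ?_ (le_total hA (by omega))
    apply mul_le_mul_of_nonneg_left _ hW.le
    have h1 := numB hS hq hq hN hN0 hM1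
    have h5 : (1 : ℝ) / (16 * N) = 4 * (1 / (64 * N)) := by field_simp; norm_num
    have h6 : (0 : ℝ) < 1 / (64 * N) := by positivity
    rw [h5]
    linarith

/-- the approximation -/
theorem approx_transfer {N : ℕ} (hN : 2 ≤ N) {num den W B I : ℕ} {Z : ℝ} (hW : 0 < W) (hI : 0 < I) (hB : B ≤ I)
    (hZ1 : Z ≤ W * (I + B + 1 / (16 * N))) (hZ2 : W * (I + B - 1 / (16 * N)) ≤ Z)
    (h : Approx (16 * N) ((num : ℝ) / den) Z) :
    Approx N (((num - B * W * den : ℕ) : ℝ) / ((den * W : ℕ) : ℝ)) (I : ℝ) := by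
  obtain ⟨h1, h2⟩ := h
  have hN' : (2 : ℝ) ≤ N := by exact_mod_cast hN
  have hN0 : (0 : ℝ) < N := by linarith
  have hW' : (0 : ℝ) < W := by exact_mod_cast hW
  have hI' : (1 : ℝ) ≤ I := by exact_mod_cast hI
  have hB' : (B : ℝ) ≤ I := by exact_mod_cast hB
  have hB0 : (0 : ℝ) ≤ B := Nat.cast_nonneg _
  push_cast at h1 h2
  set e : ℝ := 1 / (16 * (N : ℝ)) with he
  have he0 : 0 < e := by positivity
  have he1 : e ≤ 1 / 32 := by
    rw [he]
    apply one_div_le_one_div_of_le (by norm_num)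
    linarith
  have heN : 1 / (N : ℝ) = 16 * e := by rw [he]; field_simp
  -- bounds of `num / den`
  have h3 : (W : ℝ) * ((1 - e) * (I + B - e)) ≤ (num : ℝ) / den := by
    refine le_trans ?_ h1
    have : (W : ℝ) * ((1 - e) * (I + B - e)) = (1 - e) * (W * (I + B - e)) := by ring
    rw [this]
    exact mul_le_mul_of_nonneg_left hZ2 (by linarith)
  have h4 : (num : ℝ) / den ≤ W * ((1 + e) * (I + B + e)) := by
    refine h2.trans ?_
    have : (W : ℝ) * ((1 + e) * (I + B + e)) = (1 + e) * (W * (I + B + e)) := by ring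
    rw [this]
    exact mul_le_mul_of_nonneg_left hZ1 (by linarith)
  have hpos : (0 : ℝ) < W * ((1 - e) * (I + B - e)) := by
    apply mul_pos hW' (mul_pos (by linarith) (by linarith))
  have hden : (den : ℝ) ≠ 0 := by
    intro h0
    rw [h0, div_zero] at h3
    linarith
  have hden0 : (0 : ℝ) < den := lt_of_le_of_ne (Nat.cast_nonneg _) (Ne.symm hden)
  set z : ℝ := (num : ℝ) / den with hz
  have hnum : (num : ℝ) = z * den := by rw [hz]; field_simp
  have a1 : (I : ℝ) - 16 * e * I ≤ (1 - e) * (I + B - e) - B := by nlinarith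
  have a2 : (1 + e) * (I + B + e) - B ≤ I + 16 * e * I := by nlinarith
  have hsub : (B * W * den : ℕ) ≤ num := by
    have h5 : ((B * W * den : ℕ) : ℝ) ≤ num := by
      push_cast
      rw [hnum]
      apply mul_le_mul_of_nonneg_right _ hden0.le
      have h6 : (B : ℝ) * W ≤ W * ((1 - e) * (I + B - e)) := by
        rw [mul_comm]
        apply mul_le_mul_of_nonneg_left _ hW'.le
        nlinarith
      linarith
    exact_mod_cast h5
  have hval : (((num - B * W * den : ℕ) : ℝ) / ((den * W : ℕ) : ℝ)) = z / W - B := by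
    rw [Nat.cast_sub hsub]
    push_cast
    rw [hnum]
    field_simp
  rw [hval]
  have b1 : (1 - e) * (I + B - e) ≤ z / W := by
    rw [le_div_iff₀ hW']; linarith
  have b2 : z / W ≤ (1 + e) * (I + B + e) := by
    rw [div_le_iff₀ hW']; linarith
  constructor
  · rw [heN]; linarith
  · rw [heN]; linarith

end Pool.Agent.J4H95.RB
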