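import Pool.Agent.J4H95.RB.GadP

set_option autoImplicit false
set_option synthInstance.maxSize 2000

/-!
# The regular cluster gadget with clusters of any size: the transfer of approximation schemes
-/

namespace Pool.Agent.J4H95.RB

section Numbers

open Finset

theorem numAP {S q N K M : ℕ} (hS : 10 ≤ S) (hq : q ≤ S) (hN : N ≤ S) (hK : K ≤ 10 * S ^ 2) (hM1 : 1000 * S ^ 2 ≤ M) :
    64 * N * q * M * 3 ^ (q - 1) * 2 ^ K ≤ 2 ^ M := by
  have hSS : 10 * S ≤ S ^ 2 := by rw [pow_two]; exact Nat.mul_le_mul_right _ hS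
  have hM2 : M ≤ 2 ^ (M / 2) := by
    have := two_j (M / 2) (by omega)
    omega
  have h64 : 64 ≤ 2 ^ S := by
    calc 64 = 2 ^ 6 := by norm_num
      _ ≤ 2 ^ S := Nat.pow_le_pow_right (by norm_num) (by omega)
  have hlt : S ≤ 2 ^ S := Nat.lt_two_pow_self.le
  have h3 : 3 ^ (q - 1) ≤ 2 ^ (2 * S) := by
    calc 3 ^ (q - 1) ≤ 4 ^ (q - 1) := Nat.pow_le_pow_left (by norm_num) _
      _ ≤ 4 ^ S := Nat.pow_le_pow_right (by norm_num) (by omega)
      _ = 2 ^ (2 * S) := by rw [pow_mul]; norm_num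
  calc 64 * N * q * M * 3 ^ (q - 1) * 2 ^ K
      ≤ 2 ^ S * 2 ^ S * 2 ^ S * 2 ^ (M / 2) * 2 ^ (2 * S) * 2 ^ (10 * S ^ 2) := by
        apply Nat.mul_le_mul _ (Nat.pow_le_pow_right (by norm_num) hK)
        apply Nat.mul_le_mul _ h3
        apply Nat.mul_le_mul _ hM2
        apply Nat.mul_le_mul _ (hq.trans hlt)
        exact Nat.mul_le_mul h64 (hN.trans hlt)
    _ = 2 ^ (S + S + S + M / 2 + 2 * S + 10 * S ^ 2) := by simp only [pow_add]
    _ ≤ 2 ^ M := Nat.pow_le_pow_right (by norm_num) (by omega)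

variable {P R ι : Type} [Fintype P] [DecidableEq P] [Fintype R] [DecidableEq R] [Fintype ι] [DecidableEq ι]
  {E : P → R → Prop} {m : ℕ} {st : ι} {ar : ι → Option (P × (R ⊕ P))}

/-- the number of the independent sets of the gadget -/
theorem main_estP {S N : ℕ} (hS : 10 ≤ S) (hq : Fintype.card (Cl P R) ≤ S) (hp : Fintype.card P ≤ S) (hN : N ≤ S) (hN0 : 0 < N)
    (hK : #{s | ar s ≠ none} ≤ 10 * S ^ 2) (hM : 1000 * S ^ 2 ≤ Fintype.card ι) (hA : Arcs E (10 * S) st ar) :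
    (#{x : Cfg P R ι | Ind st ar x} : ℝ) ≤ WW P R ι * (#(I0 E) + 2 ^ #(iso E) + 1 / (16 * N)) ∧
    WW P R ι * (#(I0 E) + 2 ^ #(iso E) - 1 / (16 * N)) ≤ (#{x : Cfg P R ι | Ind st ar x} : ℝ) := by
  have hW : 0 < WW P R ι := by unfold WW; positivity
  have hN' : (0 : ℝ) < N := by exact_mod_cast hN0
  have hA1 := numAP hS hq hN hK hM
  have hq1 : 1 ≤ Fintype.card (Cl P R) := Fintype.card_pos
  have hM1 : 10 * S ≤ Fintype.card ι := by
    refine le_trans ?_ hM
    calc 10 * S ≤ S * S := Nat.mul_le_mul_right _ hS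
      _ = 1 * S ^ 2 := by ring
      _ ≤ 1000 * S ^ 2 := Nat.mul_le_mul_right _ (by norm_num)
  have hA2 : 2 ^ #{s | ar s ≠ none} * Fintype.card ι ≤ 2 ^ Fintype.card ι := by
    refine le_trans ?_ hA1
    have h3 : 1 ≤ 3 ^ (Fintype.card (Cl P R) - 1) := Nat.one_le_pow _ _ (by norm_num)
    calc 2 ^ #{s | ar s ≠ none} * Fintype.card ι = 1 * 1 * 1 * Fintype.card ι * 1 * 2 ^ #{s | ar s ≠ none} := by ring
      _ ≤ _ := by
        apply Nat.mul_le_mul_right
        apply Nat.mul_le_mul _ h3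
        apply Nat.mul_le_mul_right
        exact Nat.mul_le_mul (Nat.mul_le_mul (by norm_num) hN0) hq1
  constructor
  · refine (total_le hA (by omega) hA2).trans ?_
    have h1 := numB hS hq hp hN hN0 (le_refl (10 * S))
    have h2 := numC hS hq hN hN0
    have h3 : (Fintype.card (Cl P R) : ℝ) * (2 ^ #{s | ar s ≠ none} * Fintype.card ι *
        (3 * 2 ^ Fintype.card ι) ^ (Fintype.card (Cl P R) - 1)) ≤ WW P R ι * (1 / (64 * N)) := by
      rw [mul_one_div, le_div_iff₀ (by positivity)]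
      have h4 : Fintype.card (Cl P R) * (2 ^ #{s | ar s ≠ none} * Fintype.card ι *
        (3 * 2 ^ Fintype.card ι) ^ (Fintype.card (Cl P R) - 1)) * (64 * N) ≤ 2 ^ (Fintype.card ι * Fintype.card (Cl P R)) := by
        calc Fintype.card (Cl P R) * (2 ^ #{s | ar s ≠ none} * Fintype.card ι *
              (3 * 2 ^ Fintype.card ι) ^ (Fintype.card (Cl P R) - 1)) * (64 * N)
            = 64 * N * Fintype.card (Cl P R) * Fintype.card ι * 3 ^ (Fintype.card (Cl P R) - 1) * 2 ^ #{s | ar s ≠ none} *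
                (2 ^ Fintype.card ι) ^ (Fintype.card (Cl P R) - 1) := by rw [mul_pow]; ring
          _ ≤ 2 ^ Fintype.card ι * (2 ^ Fintype.card ι) ^ (Fintype.card (Cl P R) - 1) := Nat.mul_le_mul_right _ hA1
          _ = (2 ^ Fintype.card ι) ^ (Fintype.card (Cl P R) - 1 + 1) := by rw [pow_succ]; ring
          _ = 2 ^ (Fintype.card ι * Fintype.card (Cl P R)) := by rw [Nat.sub_add_cancel hq1, ← pow_mul]
      unfold WW
      exact_mod_cast h4
    have h5 : (1 : ℝ) / (16 * N) = 4 * (1 / (64 * N)) := by field_simp; norm_num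
    have h6 : (0 : ℝ) < 1 / (64 * N) := by positivity
    rw [h5]
    set X : ℝ := (2 : ℝ) ^ Fintype.card (Cl P R) * (Fintype.card P * (1 / 2) ^ (10 * S))
    set Y : ℝ := (2 : ℝ) ^ Fintype.card (Cl P R) * (3 / 4) ^ (10 * S)
    set Z : ℝ := (1 : ℝ) / (64 * N)
    nlinarith [mul_le_mul_of_nonneg_left h1 hW.le, mul_le_mul_of_nonneg_left h2 hW.le]
  · refine le_trans ?_ (le_total hA (by omega))
    apply mul_le_mul_of_nonneg_left _ hW.le
    have h1 := numB hS hq hq hN hN0 hM1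
    have h5 : (1 : ℝ) / (16 * N) = 4 * (1 / (64 * N)) := by field_simp; norm_num
    have h6 : (0 : ℝ) < 1 / (64 * N) := by positivity
    rw [h5]
    linarith


end Numbers

open Pool.Agent.NPC Pool.Agent.H49R2.PC Pool.Agent.J4H63.DB

section Poly

variable {α : Type} [TEnc α] {G : α → BGr} {ν M : α → ℕ}

theorem p_sideP (hG : NPC.Poly G) (hM : UPoly M) : NPC.Poly (fun a => sideP (M a) (G a)) :=
  NPC.Poly.flatMap (F := fun a (c : ℕ) => (List.range (M a)).map (fun s => c * M a + s)) (p_Qn hG)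
    (NPC.Poly.map (F := fun (p : α × ℕ) (s : ℕ) => p.2 * M p.1 + s)
      (hM.comp (Poly.fst Poly.id)).range
      (NPC.Poly.add (NPC.Poly.mul (Poly.snd (Poly.fst Poly.id)) (hM.toPoly.comp (Poly.fst (Poly.fst Poly.id))))
        (Poly.snd Poly.id)))

theorem p_edgesP (hG : NPC.Poly G) (hν : UPoly ν) (hM : UPoly M) : NPC.Poly (fun a => edgesP (M a) (G a) (ν a)) := by
  refine NPC.Poly.flatMap (F := fun a (c : ℕ) => (List.range (M a)).flatMap (fun s =>
    (List.range (M a)).map (fun s' => (c * M a + s,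
      (nbN (M a - 1) (arcsM (G a) (ν a))[s]? c s s').1 * M a +
      (nbN (M a - 1) (arcsM (G a) (ν a))[s]? c s s').2)))) (p_Qn hG) ?_
  refine NPC.Poly.flatMap (F := fun (p : α × ℕ) (s : ℕ) =>
    (List.range (M p.1)).map (fun s' => (p.2 * M p.1 + s,
      (nbN (M p.1 - 1) (arcsM (G p.1) (ν p.1))[s]? p.2 s s').1 * M p.1 +
      (nbN (M p.1 - 1) (arcsM (G p.1) (ν p.1))[s]? p.2 s s').2))) (hM.comp (Poly.fst Poly.id)).range ?_
  refine NPC.Poly.map (F := fun (q : (α × ℕ) × ℕ) (s' : ℕ) => (q.1.2 * M q.1.1 + q.2,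
      (nbN (M q.1.1 - 1) (arcsM (G q.1.1) (ν q.1.1))[q.2]? q.1.2 q.2 s').1 * M q.1.1 +
      (nbN (M q.1.1 - 1) (arcsM (G q.1.1) (ν q.1.1))[q.2]? q.1.2 q.2 s').2))
      (hM.comp (Poly.fst (Poly.fst Poly.id))).range ?_
  have w : NPC.Poly (fun p : ((α × ℕ) × ℕ) × ℕ => p.1.1.1) := Poly.fst (Poly.fst (Poly.fst Poly.id))
  have c : NPC.Poly (fun p : ((α × ℕ) × ℕ) × ℕ => p.1.1.2) := Poly.snd (Poly.fst (Poly.fst Poly.id))
  have s : NPC.Poly (fun p : ((α × ℕ) × ℕ) × ℕ => p.1.2) := Poly.snd (Poly.fst Poly.id)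
  have s' : NPC.Poly (fun p : ((α × ℕ) × ℕ) × ℕ => p.2) := Poly.snd Poly.id
  have M' := hM.toPoly.comp w
  have N' := p_nbN (NPC.Poly.sub M' (NPC.Poly.const 1)) (NPC.Poly.getElem? ((p_arcsM hG hν).comp w) s) c s s'
  exact Poly.pair (NPC.Poly.add (NPC.Poly.mul c M') s) (NPC.Poly.add (NPC.Poly.mul (Poly.fst N') M') (Poly.snd N'))

theorem p_gadP (hG : NPC.Poly G) (hν : UPoly ν) (hM : UPoly M) : NPC.Poly (fun a => gadP (M a) (G a) (ν a)) :=
  Poly.pair (p_sideP hG hM) (Poly.pair (p_sideP hG hM) (p_edgesP hG hν hM))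

end Poly

/-- regular bipartite graphs with `n ≤ g n * d`, where `n` is the number of the vertices of each part and `d` the
degree -/
def RegAbove (g : ℕ → ℕ) (G : BGr) : Prop :=
  G.1.length = G.2.1.length ∧ ∃ d : ℕ, (∀ u ∈ G.1, degL G u = d) ∧ (∀ v ∈ G.2.1, degR G v = d) ∧
    G.1.length ≤ g G.1.length * d

/-- the size of the clusters -/
def MP (w : ℕ) (G : BGr) (ν : ℕ) : ℕ := w + 1000 * SS G ν ^ 2

theorem MP_pos (w : ℕ) (G : BGr) (ν : ℕ) : 0 < MP w G ν := by
  have := SS_ge G ν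
  unfold MP
  positivity

theorem MP_big (w : ℕ) (G : BGr) (ν : ℕ) : 10 * SS G ν ^ 2 < MP w G ν := by
  have := SS_ge G ν
  have h0 : 0 < SS G ν ^ 2 := by positivity
  unfold MP
  omega

theorem MP_ge (w : ℕ) (G : BGr) (ν : ℕ) : 1000 * SS G ν ^ 2 ≤ MP w G ν := by
  unfold MP
  generalize 1000 * SS G ν ^ 2 = x
  omega

theorem u_MP {α : Type} [TEnc α] {G : α → BGr} {ν w : α → ℕ} (hG : NPC.Poly G) (hν : UPoly ν) (hw : UPoly w) :
    UPoly (fun a => MP (w a) (G a) (ν a)) :=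
  UPoly.add hw (UPoly.mul (UPoly.const 1000) (u_pow_const (u_SS hG hν) 2))

theorem gadP_len (M : ℕ) (G : BGr) (ν : ℕ) : (gadP M G ν).1.length = (Qn G).length * M := sideP_length M G

theorem gadP_reg' {g : ℕ → ℕ} (hg : Monotone g) {G : BGr} (hG : IsBip G) {w M ν : ℕ} (hw : 2 * nV G + 1 ≤ g w)
    (h0 : 0 < M) (hM : 10 * SS G ν ^ 2 < M) (hwM : w ≤ M) : RegAbove g (gadP M G ν) := by
  have hQ : (Qn G).length ≤ 2 * nV G + 1 := by
    unfold Qn nV
    simp only [List.length_cons, List.length_append, List.length_map]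
    omega
  have hQ1 : 1 ≤ (Qn G).length := by unfold Qn; simp
  refine ⟨rfl, M, degL_gadP h0 hG ν hM, degR_gadP h0 hG ν hM, ?_⟩
  rw [gadP_len]
  apply Nat.mul_le_mul_right
  refine (hQ.trans hw).trans (hg ?_)
  calc w ≤ 1 * M := by omega
    _ ≤ _ := Nat.mul_le_mul_right _ hQ1

theorem gadP_reg {g : ℕ → ℕ} (hg : Monotone g) {G : BGr} (hG : IsBip G) {w : ℕ} (hw : 2 * nV G + 1 ≤ g w) (ν : ℕ) :
    RegAbove g (gadP (MP w G ν) G ν) :=
  gadP_reg' hg hG hw (MP_pos w G ν) (MP_big w G ν) (Nat.le_add_right _ _)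

/-- the exponent of the factor -/
def expP (w : ℕ) (G : BGr) (ν : ℕ) : ℕ := MP w G ν * (Qn G).length

theorem u_expP {α : Type} [TEnc α] {G : α → BGr} {ν w : α → ℕ} (hG : NPC.Poly G) (hν : UPoly ν) (hw : UPoly w) :
    UPoly (fun a => expP (w a) (G a) (ν a)) :=
  UPoly.mul (u_MP hG hν hw) (UPoly.length (p_Qn hG))

theorem gadP_est (w : ℕ) {G : BGr} (hG : IsBip G) {N : ℕ} (hN : 0 < N) :
    (numIS (gadP (MP w G N) G N) : ℝ) ≤ ((2 ^ expP w G N : ℕ) : ℝ) * ((numIS G : ℕ) + (2 ^ isoN G : ℕ) + 1 / (16 * N)) ∧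
    ((2 ^ expP w G N : ℕ) : ℝ) * ((numIS G : ℕ) + (2 ^ isoN G : ℕ) - 1 / (16 * N)) ≤ (numIS (gadP (MP w G N) G N) : ℝ) := by
  have hN' : N ≤ SS G N := by unfold SS; omega
  have h := main_estP (SS_ge G N) (card_Cl_le hG N)
    (by rw [card_PT hG]; unfold SS nV; omega) hN' hN (card_arP (MP w G N) hG N)
    (by rw [Fintype.card_fin]; exact MP_ge w G N) (arcsP (MP_pos w G N) hG N (MP_big w G N))
  have hW : WW (PT G) (RT G) (Fin (MP w G N)) = ((2 ^ expP w G N : ℕ) : ℝ) := by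
    unfold WW expP
    rw [Fintype.card_fin, card_Cl hG]
    push_cast
    rfl
  rw [hW, ← numIS_gadP, ← numIS_base, ← isoN_eq hG] at h
  push_cast at h ⊢
  exact h

/-- An FPRAS for the regular graphs with `n ≤ g n * d` gives an FPRAS for the pairs of a bipartite graph with `n`
vertices and a pad `w` with `2 n + 1 ≤ g |w|`. -/
theorem transferPR {g : ℕ → ℕ} (hg : Monotone g) (h : HasFPRASOn (fun G : BGr => IsBip G ∧ RegAbove g G) numIS) :
    HasFPRASOn (fun y : BGr × List Bool => IsBip y.1 ∧ 2 * nV y.1 + 1 ≤ g y.2.length) (fun y => numIS y.1) := by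
  obtain ⟨F, A, p, hA, hAF, hF⟩ := h
  have hFp : NPC.Poly F := poly_of_code (0, 0) hA hAF
  have hgad : NPC.Poly (fun a : (BGr × List Bool) × List Bool => gadP (MP a.1.2.length a.1.1 a.2.length) a.1.1 a.2.length) :=
    p_gadP (Poly.fst (Poly.fst Poly.id)) (UPoly.length (Poly.snd Poly.id))
      (u_MP (Poly.fst (Poly.fst Poly.id)) (UPoly.length (Poly.snd Poly.id)) (UPoly.length (Poly.snd (Poly.fst Poly.id))))
  obtain ⟨q, hq⟩ := hgad.sz_le
  set nu : (BGr × List Bool) × ℕ × List Bool → ℕ := fun x => min x.2.1 x.2.2.length with hnu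
  set len : (BGr × List Bool) × ℕ × List Bool → ℕ :=
    fun x => p.eval ((bits (gadP (MP x.1.2.length x.1.1 (nu x)) x.1.1 (nu x))).length + 16 * x.2.1) with hlen
  set G' : (BGr × List Bool) × ℕ × List Bool → ℕ × ℕ := fun x =>
    F (gadP (MP x.1.2.length x.1.1 (nu x)) x.1.1 (nu x), 16 * x.2.1, x.2.2.take (len x)) with hG'
  have hG0 : NPC.Poly (fun x : (BGr × List Bool) × ℕ × List Bool => x.1.1) := Poly.fst (Poly.fst Poly.id)
  have hw0 : UPoly (fun x : (BGr × List Bool) × ℕ × List Bool => x.1.2.length) := UPoly.length (Poly.snd (Poly.fst Poly.id))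
  have hN0 : NPC.Poly (fun x : (BGr × List Bool) × ℕ × List Bool => x.2.1) := Poly.fst (Poly.snd Poly.id)
  have hr0 : NPC.Poly (fun x : (BGr × List Bool) × ℕ × List Bool => x.2.2) := Poly.snd (Poly.snd Poly.id)
  have hnuU : UPoly nu := UPoly.of_le (NPC.Poly.min hN0 (Poly.length hr0)) (UPoly.length hr0) fun x => min_le_right _ _
  have hG1 : NPC.Poly (fun x : (BGr × List Bool) × ℕ × List Bool => gadP (MP x.1.2.length x.1.1 (nu x)) x.1.1 (nu x)) :=
    p_gadP hG0 hnuU (u_MP hG0 hnuU hw0)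
  have h16 : NPC.Poly (fun x : (BGr × List Bool) × ℕ × List Bool => 16 * x.2.1) := NPC.Poly.mul (NPC.Poly.const 16) hN0
  have hlenP : NPC.Poly len := p_eval (NPC.Poly.add (Poly.length (p_bits.comp hG1)) h16) p
  have hG'P : NPC.Poly G' := hFp.comp (Poly.pair hG1 (Poly.pair h16 (p_take hr0 hlenP)))
  have hWP : NPC.Poly (fun x : (BGr × List Bool) × ℕ × List Bool => 2 ^ expP x.1.2.length x.1.1 (nu x)) :=
    p_two_pow (u_expP hG0 hnuU hw0)
  have hBP : NPC.Poly (fun x : (BGr × List Bool) × ℕ × List Bool => 2 ^ isoN x.1.1) := p_two_pow (u_isoN hG0)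
  have hout : NPC.Poly (fun x : (BGr × List Bool) × ℕ × List Bool =>
      ((G' x).1 - 2 ^ isoN x.1.1 * 2 ^ expP x.1.2.length x.1.1 (nu x) * (G' x).2,
        (G' x).2 * 2 ^ expP x.1.2.length x.1.1 (nu x))) :=
    Poly.pair (NPC.Poly.sub (Poly.fst hG'P) (NPC.Poly.mul (NPC.Poly.mul hBP hWP) (Poly.snd hG'P)))
      (NPC.Poly.mul (Poly.snd hG'P) hWP)
  obtain ⟨B, hB, hB'⟩ := exists_polyTime hout (0, 0)
  set pp : Polynomial ℕ := p.comp (q.comp (Polynomial.C 4 * Polynomial.X + Polynomial.C 2) + Polynomial.C 16 * Polynomial.X) +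
    Polynomial.X with hpp
  refine ⟨_, B, pp, hB, hB', ?_⟩
  rintro ⟨G, w⟩ ⟨hG, hw⟩ N hN
  simp only at hG hw
  have hP := hF (gadP (MP w.length G N) G N) ⟨gadP_isBip (MP_pos _ G N) hG N, gadP_reg hg hG hw N⟩ (16 * N) (by omega)
  set l := p.eval ((bits (gadP (MP w.length G N) G N)).length + 16 * N) with hl
  set l' := pp.eval ((bits (G, w)).length + N) with hl'
  have hev : l' = p.eval (q.eval (4 * ((bits (G, w)).length + N) + 2) + 16 * ((bits (G, w)).length + N)) +
      ((bits (G, w)).length + N) := by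
    rw [hl', hpp]
    simp only [Polynomial.eval_add, Polynomial.eval_comp, Polynomial.eval_mul, Polynomial.eval_C, Polynomial.eval_X]
  have hNl : N ≤ l' := by omega
  have hll' : l ≤ l' := by
    rw [hev, hl]
    refine le_trans (eval_mono p ?_) (Nat.le_add_right _ _)
    have h1 : (bits (gadP (MP w.length G N) G N)).length ≤
        q.eval (sz (((G, w), List.replicate N true) : (BGr × List Bool) × List Bool)) := by
      have := hq ((G, w), List.replicate N true)
      simp only [List.length_replicate] at this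
      exact this
    have h2 : sz (((G, w), List.replicate N true) : (BGr × List Bool) × List Bool) ≤ 4 * ((bits (G, w)).length + N) + 2 := by
      rw [sz_pair]
      have h3 := sz_listBool_le (List.replicate N true)
      rw [List.length_replicate] at h3
      have h4 : (bits (G, w)).length = sz (G, w) := rfl
      omega
    have h5 := eval_mono q h2
    omega
  have hest := gadP_est w.length hG (N := N) (by omega)
  set good : List Bool → Prop := fun r =>
    Approx (16 * N) (((F (gadP (MP w.length G N) G N, 16 * N, r)).1 : ℝ) / (F (gadP (MP w.length G N) G N, 16 * N, r)).2)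
      (numIS (gadP (MP w.length G N) G N)) with hgood
  have h1 := ncard_take good l l' hll'
  have h2 : {r : List Bool | r.length = l' ∧ good (r.take l)} ⊆
      {r : List Bool | r.length = l' ∧ Approx N
        ((((((G' ((G, w), N, r)).1 - 2 ^ isoN G * 2 ^ expP w.length G (nu ((G, w), N, r)) * (G' ((G, w), N, r)).2,
          (G' ((G, w), N, r)).2 * 2 ^ expP w.length G (nu ((G, w), N, r))) : ℕ × ℕ).1 : ℕ) : ℝ) /
        ((((G' ((G, w), N, r)).1 - 2 ^ isoN G * 2 ^ expP w.length G (nu ((G, w), N, r)) * (G' ((G, w), N, r)).2,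
          (G' ((G, w), N, r)).2 * 2 ^ expP w.length G (nu ((G, w), N, r))) : ℕ × ℕ).2 : ℕ)) (numIS G)} := by
    rintro r ⟨hr1, hr2⟩
    refine ⟨hr1, ?_⟩
    have hnu' : nu ((G, w), N, r) = N := by
      rw [hnu]
      simp only
      rw [hr1]
      exact min_eq_left hNl
    have h3 : G' ((G, w), N, r) = F (gadP (MP w.length G N) G N, 16 * N, r.take l) := by
      rw [hG']
      simp only [hlen]
      rw [hnu']
    rw [h3, hnu']
    simp only [hgood] at hr2
    exact approx_transfer hN (by positivity) (one_le_numIS G) (isoN_le hG) hest.1 hest.2 hr2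
  have h3 := Set.ncard_le_ncard h2 ((finite_strings l').subset fun r hr => hr.1)
  calc 3 * 2 ^ l' = 3 * 2 ^ l * 2 ^ (l' - l) := by
        rw [Nat.mul_assoc, ← pow_add, show l + (l' - l) = l' by omega]
    _ ≤ 4 * {r : List Bool | r.length = l ∧ good r}.ncard * 2 ^ (l' - l) :=
        Nat.mul_le_mul_right _ hP
    _ = 4 * ({r : List Bool | r.length = l ∧ good r}.ncard * 2 ^ (l' - l)) := by ring
    _ ≤ 4 * {r : List Bool | r.length = l' ∧ good (r.take l)}.ncard := Nat.mul_le_mul_left _ h1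
    _ ≤ _ := Nat.mul_le_mul_left _ h3

/-- The deterministic analogue. -/
theorem transferPT {g : ℕ → ℕ} (hg : Monotone g) (h : HasFPTASOn (fun G : BGr => IsBip G ∧ RegAbove g G) numIS) :
    HasFPTASOn (fun y : BGr × List Bool => IsBip y.1 ∧ 2 * nV y.1 + 1 ≤ g y.2.length) (fun y => numIS y.1) := by
  obtain ⟨F, A, hA, hAF, hF⟩ := h
  have hFp : NPC.Poly F := poly_of_code 0 hA hAF
  have hG0 : NPC.Poly (fun x : (BGr × List Bool) × List Bool => x.1.1) := Poly.fst (Poly.fst Poly.id)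
  have hu0 : UPoly (fun x : (BGr × List Bool) × List Bool => x.1.2.length) := UPoly.length (Poly.snd (Poly.fst Poly.id))
  have hw0 : UPoly (fun x : (BGr × List Bool) × List Bool => x.2.length) := UPoly.length (Poly.snd Poly.id)
  have hG1 : NPC.Poly (fun x : (BGr × List Bool) × List Bool => gadP (MP x.1.2.length x.1.1 x.2.length) x.1.1 x.2.length) :=
    p_gadP hG0 hw0 (u_MP hG0 hw0 hu0)
  have hG'P : NPC.Poly (fun x : (BGr × List Bool) × List Bool =>
      F (gadP (MP x.1.2.length x.1.1 x.2.length) x.1.1 x.2.length, List.replicate (16 * x.2.length) false)) :=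
    hFp.comp (Poly.pair hG1 (p_replicate (UPoly.mul (UPoly.const 16) hw0) (NPC.Poly.const false)))
  have hWP : NPC.Poly (fun x : (BGr × List Bool) × List Bool => 2 ^ expP x.1.2.length x.1.1 x.2.length) :=
    p_two_pow (u_expP hG0 hw0 hu0)
  have hBP : NPC.Poly (fun x : (BGr × List Bool) × List Bool => 2 ^ isoN x.1.1) := p_two_pow (u_isoN hG0)
  have hout : NPC.Poly (fun x : (BGr × List Bool) × List Bool =>
      (2 * (F (gadP (MP x.1.2.length x.1.1 x.2.length) x.1.1 x.2.length, List.replicate (16 * x.2.length) false) -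
        2 ^ isoN x.1.1 * 2 ^ expP x.1.2.length x.1.1 x.2.length) +
        2 ^ expP x.1.2.length x.1.1 x.2.length) / (2 * 2 ^ expP x.1.2.length x.1.1 x.2.length)) :=
    Poly.div (NPC.Poly.add (NPC.Poly.mul (NPC.Poly.const 2) (NPC.Poly.sub hG'P (NPC.Poly.mul hBP hWP))) hWP)
      (NPC.Poly.mul (NPC.Poly.const 2) hWP)
  obtain ⟨B, hB, hB'⟩ := exists_polyTime hout 0
  refine ⟨_, B, hB, hB', ?_⟩
  rintro ⟨G, u⟩ ⟨hG, hu⟩ w hw
  simp only at hG hu
  have hN : 0 < w.length := List.length_pos_iff.2 hw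
  have hP := hF (gadP (MP u.length G w.length) G w.length) ⟨gadP_isBip (MP_pos _ G _) hG _, gadP_reg hg hG hu _⟩
    (List.replicate (16 * w.length) false) (by
      rw [Ne, ← List.length_eq_zero_iff, List.length_replicate]
      omega)
  rw [List.length_replicate] at hP
  have hest := gadP_est u.length hG hN
  exact approx_transferT hN (by positivity) (one_le_numIS G) (isoN_le hG) hest.1 hest.2 hP

end Pool.Agent.J4H95.RB
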