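import Pool.Agent.J4H95.RB.Bounds

set_option autoImplicit false

/-!
# The regular cluster gadget: the number of all independent sets
-/

namespace Pool.Agent.J4H95.RB

open Finset

variable {P R ι : Type} [Fintype P] [DecidableEq P] [Fintype R] [DecidableEq R] [Fintype ι] [DecidableEq ι]
  {E : P → R → Prop} {m : ℕ} {st : ι} {ar : ι → Option (P × (R ⊕ P))}

open Classical in
/-- the independent sets of the base graph -/
noncomputable def I0 (E : P → R → Prop) : Finset ((P → Bool) × (R → Bool)) :=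
  {x | ∀ u v, x.1 u = true → x.2 v = true → ¬ E u v}

open Classical in
/-- the isolated right vertices -/
noncomputable def iso (E : P → R → Prop) : Finset R := {v | ∀ u, ¬ E u v}

theorem Arcs.exP (hA : Arcs E m st ar) (hm : 1 ≤ m) (u : P) : ∃ s, ar s = some (u, Sum.inr u) := by
  have h : 0 < #{s | ar s = some (u, (Sum.inr u : R ⊕ P))} := by
    have := hA.cP u
    omega
  obtain ⟨s, hs⟩ := card_pos.1 h
  rw [mem_filter] at hs
  exact ⟨s, hs.2⟩

theorem Arcs.exE (hA : Arcs E m st ar) (hm : 1 ≤ m) {u : P} {v : R} (huv : E u v) : ∃ s, ar s = some (u, Sum.inl v) := by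
  have h : 0 < #{s | ar s = some (u, (Sum.inl v : R ⊕ P))} := by
    have := hA.cE u v huv
    omega
  obtain ⟨s, hs⟩ := card_pos.1 h
  rw [mem_filter] at hs
  exact ⟨s, hs.2⟩

open Classical in
theorem sum_Cl0 (hA : Arcs E m st ar) (hm : 1 ≤ m) :
    ∑ σ : Cl P R → Bool with Cl0 ar σ, (1 / 2 : ℝ) ^ #(act σ) = #(I0 E) := by
  set f : (Cl P R → Bool) → (P → Bool) × (R → Bool) := fun σ => (fun u => !σ (cU u), fun v => σ (cJ (Sum.inl v))) with hf
  have hmaps : ∀ σ ∈ ({σ | Cl0 ar σ} : Finset (Cl P R → Bool)), f σ ∈ I0 E := by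
    intro σ hσ
    rw [mem_filter] at hσ
    unfold I0
    rw [mem_filter]
    refine ⟨mem_univ _, fun u v h1 h2 h3 => ?_⟩
    simp only [hf, Bool.not_eq_true'] at h1 h2
    obtain ⟨s, hs⟩ := hA.exE hm h3
    rw [hσ.2.2 s u _ hs h1] at h2
    exact absurd h2 (by simp)
  rw [← sum_fiberwise_of_maps_to hmaps]
  rw [card_eq_sum_ones, Nat.cast_sum]
  apply sum_congr rfl
  rintro ⟨x, y⟩ hxy
  unfold I0 at hxy
  rw [mem_filter] at hxy
  have hxy := hxy.2
  simp only at hxy
  set F : Finset (Cl P R → Bool) := {σ ∈ ({σ | Cl0 ar σ} : Finset (Cl P R → Bool)) | f σ = (x, y)} with hF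
  set c : ℕ := #{u | x u = false} with hc
  have h1 : ∀ σ ∈ F, (1 / 2 : ℝ) ^ #(act σ) = (1 / 2) ^ c := by
    intro σ hσ
    rw [hF, mem_filter] at hσ
    congr 1
    rw [hc]
    congr 1
    unfold act
    ext u
    rw [mem_filter, mem_filter]
    have h2 : (!σ (cU u)) = x u := congrFun (Prod.mk.inj hσ.2).1 u
    rw [← h2]
    simp
  rw [sum_congr rfl h1, sum_const, nsmul_eq_mul]
  -- the fibre
  set S : Finset (Cl P R) := {a | ∀ w, a = cJ (Sum.inr w) → x w = true} with hS
  set b : Cl P R → Bool := fun a => match a with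
    | none => false
    | some (Sum.inl u) => !x u
    | some (Sum.inr (Sum.inl v)) => y v
    | some (Sum.inr (Sum.inr _)) => false with hb
  have hmem : ∀ σ, σ ∈ F ↔ ∀ a ∈ S, σ a = b a := by
    intro σ
    rw [hF, mem_filter, mem_filter]
    constructor
    · rintro ⟨⟨_, h2⟩, h3⟩ a ha
      have h4 : ∀ u, (!σ (cU u)) = x u := fun u => congrFun (Prod.mk.inj h3).1 u
      have h5 : ∀ v, σ (cJ (Sum.inl v)) = y v := fun v => congrFun (Prod.mk.inj h3).2 v
      rcases a with _ | (u | (v | w))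
      · exact h2.1
      · change σ (cU u) = !x u
        rw [← h4 u]; simp
      · exact h5 v
      · change σ (cJ (Sum.inr w)) = false
        rw [hS, mem_filter] at ha
        have h6 := ha.2 w rfl
        obtain ⟨s, hs⟩ := hA.exP hm w
        apply h2.2 s w _ hs
        have := h4 w
        rw [h6] at this
        simpa using this
    · intro h
      have hn : σ none = false := h none (by rw [hS, mem_filter]; exact ⟨mem_univ _, fun w hw => by simp at hw⟩)
      have hU : ∀ u, σ (cU u) = !x u := fun u => h (cU u) (by rw [hS, mem_filter]; exact ⟨mem_univ _, fun w hw => by simp at hw⟩)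
      have hV : ∀ v, σ (cJ (Sum.inl v)) = y v := fun v => h (cJ (Sum.inl v)) (by rw [hS, mem_filter]; exact ⟨mem_univ _, fun w hw => by simp at hw⟩)
      refine ⟨⟨mem_univ _, hn, ?_⟩, ?_⟩
      · intro s u j hs h2
        rw [hU u] at h2
        have h2 : x u = true := by simpa using h2
        rcases j with v | w
        · rw [hV v]
          by_contra h3
          rw [Bool.not_eq_false] at h3
          exact hxy u v h2 h3 (hA.edge s u v hs)
        · have h3 := hA.pend s u w hs
          subst h3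
          exact h (cJ (Sum.inr w)) (by
            rw [hS, mem_filter]
            refine ⟨mem_univ _, fun w' hw' => ?_⟩
            simp only [Option.some.injEq, Sum.inr.injEq] at hw'
            rw [← hw']; exact h2)
      · rw [hf]
        apply Prod.ext
        · funext u; simp [hU u]
        · funext v; exact hV v
  have h2 := card_fix S b hmem
  have h3 : #S + c = Fintype.card (Cl P R) := by
    have h4 := card_filter_add_card_filter_not (s := (univ : Finset (Cl P R))) (fun a => ∀ w, a = cJ (Sum.inr w) → x w = true)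
    rw [card_univ] at h4
    have h5 : #{a : Cl P R | ¬ ∀ w, a = cJ (Sum.inr w) → x w = true} = c := by
      rw [hc]
      symm
      apply card_bij (fun u _ => (cJ (Sum.inr u) : Cl P R))
      · intro u hu
        rw [mem_filter] at hu ⊢
        refine ⟨mem_univ _, fun h => ?_⟩
        rw [h u rfl] at hu
        exact absurd hu.2 (by simp)
      · intro u _ v _ h; simpa using h
      · intro a ha
        rw [mem_filter] at ha
        have ha := ha.2
        push Not at ha
        obtain ⟨w, rfl, hw⟩ := ha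
        exact ⟨w, by rw [mem_filter]; exact ⟨mem_univ _, by simpa using hw⟩, rfl⟩
    rw [h5] at h4
    rw [hS]
    convert h4
  have h4 : (#F : ℝ) * 2 ^ #S = 2 ^ c * 2 ^ #S := by
    rw [← pow_add, add_comm c, h3]
    exact_mod_cast h2
  have h5 : (#F : ℝ) = 2 ^ c := mul_right_cancel₀ (by positivity) h4
  rw [h5, ← mul_pow]
  norm_num

open Classical in
theorem card_Cl1 (hA : Arcs E m st ar) (hm : 1 ≤ m) :
    #{σ : Cl P R → Bool | Cl1 ar σ} = 2 ^ #(iso E) := by
  set S : Finset (Cl P R) := {a | ∀ v, a = cJ (Sum.inl v) → ∃ u, E u v} with hS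
  have h2 := card_fix S (fun _ => true) (F := {σ : Cl P R → Bool | Cl1 ar σ}) (by
    intro σ
    rw [mem_filter]
    constructor
    · rintro ⟨_, h1, h2⟩ a ha
      rcases a with _ | (u | (v | w))
      · exact h1
      · obtain ⟨s, hs⟩ := hA.exP hm u
        exact (h2 s u _ hs).1
      · rw [hS, mem_filter] at ha
        obtain ⟨u, hu⟩ := ha.2 v rfl
        obtain ⟨s, hs⟩ := hA.exE hm hu
        exact (h2 s u _ hs).2
      · obtain ⟨s, hs⟩ := hA.exP hm w
        exact (h2 s w _ hs).2
    · intro h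
      refine ⟨mem_univ _, h none (by rw [hS, mem_filter]; exact ⟨mem_univ _, fun w hw => by simp at hw⟩), ?_⟩
      intro s u j hs
      refine ⟨h (cU u) (by rw [hS, mem_filter]; exact ⟨mem_univ _, fun w hw => by simp at hw⟩), ?_⟩
      apply h
      rw [hS, mem_filter]
      refine ⟨mem_univ _, fun v hv => ?_⟩
      simp only [Option.some.injEq, Sum.inr.injEq] at hv
      subst hv
      exact ⟨u, hA.edge s u v hs⟩)
  have h3 : #S + #(iso E) = Fintype.card (Cl P R) := by
    have h4 := card_filter_add_card_filter_not (s := (univ : Finset (Cl P R))) (fun a => ∀ v, a = cJ (Sum.inl v) → ∃ u, E u v)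
    rw [card_univ] at h4
    have h5 : #{a : Cl P R | ¬ ∀ v, a = cJ (Sum.inl v) → ∃ u, E u v} = #(iso E) := by
      symm
      apply card_bij (fun v _ => (cJ (Sum.inl v) : Cl P R))
      · intro v hv
        unfold iso at hv
        rw [mem_filter] at hv ⊢
        refine ⟨mem_univ _, fun h => ?_⟩
        obtain ⟨u, hu⟩ := h v rfl
        exact hv.2 u hu
      · intro u _ v _ h; simpa using h
      · intro a ha
        rw [mem_filter] at ha
        have ha := ha.2
        push Not at ha
        obtain ⟨v, rfl, hv⟩ := ha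
        exact ⟨v, by unfold iso; rw [mem_filter]; exact ⟨mem_univ _, hv⟩, rfl⟩
    rw [h5] at h4
    rw [hS]
    convert h4
  have h4 : #{σ : Cl P R → Bool | Cl1 ar σ} * 2 ^ #S = 2 ^ #(iso E) * 2 ^ #S := by
    rw [h2, ← pow_add, add_comm (#(iso E)), h3]
  exact Nat.eq_of_mul_eq_mul_right (by positivity) h4

open Classical in
theorem sum_GS_le (hA : Arcs E m st ar) (hm : 1 ≤ m) : ∑ σ : Cl P R → Bool, (#(GS st ar σ) : ℝ) ≤
    WW P R ι * (#(I0 E) + 2 ^ #(iso E) + 2 ^ Fintype.card (Cl P R) * (Fintype.card P * (1 / 2) ^ m) +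
      2 ^ Fintype.card (Cl P R) * (3 / 4) ^ m) := by
  have hW : 0 ≤ WW P R ι := by unfold WW; positivity
  have h1 : ∀ σ : Cl P R → Bool, (#(GS st ar σ) : ℝ) ≤ WW P R ι * ((if Cl0 ar σ then (1 / 2 : ℝ) ^ #(act σ) else 0) +
      (if Cl1 ar σ then 1 else 0) + Fintype.card P * (1 / 2) ^ m + (3 / 4) ^ m) := by
    intro σ
    by_cases h0 : Cl0 ar σ
    · rw [if_pos h0]
      refine (GS0_le hA h0).trans (mul_le_mul_of_nonneg_left ?_ hW)
      have : (0 : ℝ) ≤ if Cl1 ar σ then 1 else 0 := by split_ifs <;> norm_num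
      have : (0 : ℝ) ≤ (3 / 4) ^ m := by positivity
      linarith
    · rw [if_neg h0]
      by_cases h1 : Cl1 ar σ
      · rw [if_pos h1, GS1 h1]
        have : (0 : ℝ) ≤ (3 / 4) ^ m := by positivity
        have : (0 : ℝ) ≤ Fintype.card P * (1 / 2) ^ m := by positivity
        nlinarith
      · rw [if_neg h1]
        refine (GSbad hA h0 h1).trans (mul_le_mul_of_nonneg_left ?_ hW)
        have : (0 : ℝ) ≤ Fintype.card P * (1 / 2) ^ m := by positivity
        linarith
  refine (sum_le_sum fun σ _ => h1 σ).trans (le_of_eq ?_)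
  rw [← mul_sum]
  congr 1
  rw [sum_add_distrib, sum_add_distrib, sum_add_distrib, ← sum_filter, sum_Cl0 hA hm, sum_const, sum_const, sum_boole,
    card_Cl1 hA hm, card_univ, Fintype.card_fun, Fintype.card_bool, nsmul_eq_mul, nsmul_eq_mul]
  push_cast
  ring

open Classical in
theorem le_sum_GS (hA : Arcs E m st ar) (hm : 1 ≤ m) : WW P R ι * (#(I0 E) + 2 ^ #(iso E)) ≤
    ∑ σ : Cl P R → Bool, (#(GS st ar σ) : ℝ) := by
  have hW : 0 ≤ WW P R ι := by unfold WW; positivity
  have h1 : ∀ σ : Cl P R → Bool, WW P R ι * ((if Cl0 ar σ then (1 / 2 : ℝ) ^ #(act σ) else 0) +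
      (if Cl1 ar σ then 1 else 0)) ≤ (#(GS st ar σ) : ℝ) := by
    intro σ
    by_cases h0 : Cl0 ar σ
    · have h1 : ¬ Cl1 ar σ := fun h1 => by
        have := h0.1.symm.trans h1.1
        exact absurd this (by simp)
      rw [if_pos h0, if_neg h1, add_zero]
      exact le_GS0 h0
    · rw [if_neg h0]
      by_cases h1 : Cl1 ar σ
      · rw [if_pos h1, GS1 h1]
        linarith
      · rw [if_neg h1]
        simp
  refine (le_of_eq ?_).trans (sum_le_sum fun σ _ => h1 σ)
  rw [← mul_sum]
  congr 1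
  rw [sum_add_distrib, ← sum_filter, sum_Cl0 hA hm, sum_boole, card_Cl1 hA hm]
  push_cast
  ring

theorem total_le (hA : Arcs E m st ar) (hm : 1 ≤ m)
    (h : 2 ^ #{s | ar s ≠ none} * Fintype.card ι ≤ 2 ^ Fintype.card ι) :
    (#{x : Cfg P R ι | Ind st ar x} : ℝ) ≤
      WW P R ι * (#(I0 E) + 2 ^ #(iso E) + 2 ^ Fintype.card (Cl P R) * (Fintype.card P * (1 / 2) ^ m) +
        2 ^ Fintype.card (Cl P R) * (3 / 4) ^ m) +
      Fintype.card (Cl P R) * (2 ^ #{s | ar s ≠ none} * Fintype.card ι *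
        (3 * 2 ^ Fintype.card ι) ^ (Fintype.card (Cl P R) - 1)) := by
  have h1 := card_mixed (P := P) (R := R) (st := st) h
  have h2 := pure_le (P := P) (R := R) (st := st) (ar := ar)
  have h3 := sum_GS_le hA hm
  have h4 : #{x : Cfg P R ι | Ind st ar x} = #{x : Cfg P R ι | Ind st ar x ∧ ∃ c, Mix x c} +
      #{x : Cfg P R ι | Ind st ar x ∧ ¬ ∃ c, Mix x c} := by
    rw [← card_filter_add_card_filter_not (s := ({x : Cfg P R ι | Ind st ar x} : Finset (Cfg P R ι))) (fun x => ∃ c, Mix x c),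
      filter_filter, filter_filter]
  have h5 : (#{x : Cfg P R ι | Ind st ar x ∧ ∃ c, Mix x c} : ℝ) ≤ Fintype.card (Cl P R) * (2 ^ #{s | ar s ≠ none} * Fintype.card ι *
        (3 * 2 ^ Fintype.card ι) ^ (Fintype.card (Cl P R) - 1)) := by exact_mod_cast h1
  have h6 : (#{x : Cfg P R ι | Ind st ar x ∧ ¬ ∃ c, Mix x c} : ℝ) ≤ ∑ σ : Cl P R → Bool, (#(GS st ar σ) : ℝ) := by exact_mod_cast h2
  rw [h4]
  push_cast
  linarith

theorem le_total (hA : Arcs E m st ar) (hm : 1 ≤ m) :
    WW P R ι * (#(I0 E) + 2 ^ #(iso E) - 2 ^ Fintype.card (Cl P R) * (Fintype.card (Cl P R) * (1 / 2) ^ Fintype.card ι)) ≤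
      (#{x : Cfg P R ι | Ind st ar x} : ℝ) := by
  have h2 := le_pure (P := P) (R := R) (st := st) (ar := ar)
  have h3 := le_sum_GS hA hm
  have h4 : ∑ σ : Cl P R → Bool, ((#(GS st ar σ) : ℝ) - WW P R ι * (Fintype.card (Cl P R) * (1 / 2) ^ Fintype.card ι)) ≤
      ∑ σ : Cl P R → Bool, (#(GN st ar σ) : ℝ) := sum_le_sum fun σ _ => GN_ge σ
  have h5 : ∑ σ : Cl P R → Bool, (#(GN st ar σ) : ℝ) ≤ #{x : Cfg P R ι | Ind st ar x} := by exact_mod_cast h2
  rw [sum_sub_distrib, sum_const, card_univ, Fintype.card_fun, Fintype.card_bool, nsmul_eq_mul] at h4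
  push_cast at h4
  nlinarith [h3, h4, h5]

end Pool.Agent.J4H95.RB
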