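import Pool.Agent.J4H95.RB.Gad

set_option autoImplicit false
set_option synthInstance.maxSize 2000

/-!
# The regular cluster gadget: polynomial time and the transfer of approximation schemes
-/

namespace Pool.Agent.J4H95.RB

open Pool.Agent.NPC Pool.Agent.H49R2.PC Pool.Agent.J4H63.DB

section Poly

variable {α : Type} [TEnc α]

theorem p_nbN {st c s s' : α → ℕ} {o : α → Option (ℕ × ℕ)} (hst : NPC.Poly st) (ho : NPC.Poly o) (hc : NPC.Poly c)
    (hs : NPC.Poly s) (hs' : NPC.Poly s') : NPC.Poly (fun a => nbN (st a) (o a) (c a) (s a) (s' a)) := by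
  have L : ∀ {f : α → ℕ}, NPC.Poly f → NPC.Poly (fun p : α × (ℕ × ℕ) => f p.1) := fun hf => hf.comp (Poly.fst Poly.id)
  have b1 : NPC.Poly (fun p : α × (ℕ × ℕ) => p.2.1) := Poly.fst (Poly.snd Poly.id)
  have b2 : NPC.Poly (fun p : α × (ℕ × ℕ) => p.2.2) := Poly.snd (Poly.snd Poly.id)
  refine (Poly.optCases (o := o) (g := fun a => (c a, s' a)) (h := fun a b => if c a = b.1 ∧ s' a = st a then (b.2, s a) else
    if c a = b.2 ∧ s' a = s a then (0, s a) else if c a = 0 ∧ s' a = s a then (b.1, st a) else (c a, s' a)) ho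
    (Poly.pair hc hs') ?_).congr fun a => ?_
  · refine Poly.ite (p := fun p : α × (ℕ × ℕ) => c p.1 = p.2.1 ∧ s' p.1 = st p.1)
      (Poly.decide_and (Poly.decide_eq (L hc) b1) (Poly.decide_eq (L hs') (L hst))) (Poly.pair b2 (L hs)) ?_
    refine Poly.ite (p := fun p : α × (ℕ × ℕ) => c p.1 = p.2.2 ∧ s' p.1 = s p.1)
      (Poly.decide_and (Poly.decide_eq (L hc) b2) (Poly.decide_eq (L hs') (L hs))) (Poly.pair (NPC.Poly.const 0) (L hs)) ?_
    exact Poly.ite (p := fun p : α × (ℕ × ℕ) => c p.1 = 0 ∧ s' p.1 = s p.1)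
      (Poly.decide_and (Poly.decide_eq (L hc) (NPC.Poly.const 0)) (Poly.decide_eq (L hs') (L hs))) (Poly.pair b1 (L hst))
      (Poly.pair (L hc) (L hs'))
  · unfold nbN
    cases o a <;> rfl

theorem p_replicate {β : Type} [TEnc β] {n : α → ℕ} {b : α → β} (hn : UPoly n) (hb : NPC.Poly b) :
    NPC.Poly (fun a => List.replicate (n a) (b a)) :=
  (NPC.Poly.map (F := fun a (_ : ℕ) => b a) hn.range (hb.comp (Poly.fst Poly.id))).congr fun a => by
    rw [List.map_const', List.length_range]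

variable {G : α → BGr} {ν : α → ℕ}

theorem u_SS (hG : NPC.Poly G) (hν : UPoly ν) : UPoly (fun a => SS (G a) (ν a)) :=
  UPoly.add (UPoly.add (UPoly.add (UPoly.mul (UPoly.const 2) (p_nV hG)) (UPoly.length (Poly.snd (Poly.snd hG)))) hν) (UPoly.const 10)

theorem u_Mm (k : ℕ) (hG : NPC.Poly G) (hν : UPoly ν) : UPoly (fun a => Mm k (G a) (ν a)) :=
  u_pow_const (u_SS hG hν) (k + 5)

theorem p_lin {β : Type} [TEnc β] (a b : ℕ) {f : β → ℕ} (hf : NPC.Poly f) : NPC.Poly (fun x => a * f x + b) :=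
  NPC.Poly.add (NPC.Poly.mul (NPC.Poly.const a) hf) (NPC.Poly.const b)

theorem p_mapl (a b : ℕ) {l : α → List ℕ} (hl : NPC.Poly l) : NPC.Poly (fun x => (l x).map (fun u => a * u + b)) :=
  NPC.Poly.map (F := fun _ u => a * u + b) hl (p_lin a b (Poly.snd Poly.id))

theorem p_arcs0 (hG : NPC.Poly G) : NPC.Poly (fun a => arcs0 (G a)) := by
  refine Poly.append ?_ ?_
  · exact NPC.Poly.map (F := fun _ (e : ℕ × ℕ) => (3 * e.1 + 1, 3 * e.2 + 2)) (Poly.snd (Poly.snd hG))
      (Poly.pair (p_lin 3 1 (Poly.fst (Poly.snd Poly.id))) (p_lin 3 2 (Poly.snd (Poly.snd Poly.id))))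
  · exact NPC.Poly.map (F := fun _ (u : ℕ) => (3 * u + 1, 3 * u + 3)) (Poly.fst hG)
      (Poly.pair (p_lin 3 1 (Poly.snd Poly.id)) (p_lin 3 3 (Poly.snd Poly.id)))

theorem p_arcsM (hG : NPC.Poly G) (hν : UPoly ν) : NPC.Poly (fun a => arcsM (G a) (ν a)) :=
  NPC.Poly.flatMap (F := fun a (e : ℕ × ℕ) => List.replicate (10 * SS (G a) (ν a)) e) (p_arcs0 hG)
    (p_replicate (n := fun p : α × (ℕ × ℕ) => 10 * SS (G p.1) (ν p.1)) (b := fun p : α × (ℕ × ℕ) => p.2)
      (UPoly.mul (UPoly.const 10) ((u_SS hG hν).comp (Poly.fst Poly.id))) (Poly.snd Poly.id))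

theorem p_Qn (hG : NPC.Poly G) : NPC.Poly (fun a => Qn (G a)) :=
  Poly.cons (NPC.Poly.const 0) (Poly.append (p_mapl 3 1 (Poly.fst hG)) (Poly.append (p_mapl 3 2 (Poly.fst (Poly.snd hG)))
    (p_mapl 3 3 (Poly.fst hG))))

theorem p_side (k : ℕ) (hG : NPC.Poly G) (hν : UPoly ν) : NPC.Poly (fun a => side k (G a) (ν a)) :=
  NPC.Poly.flatMap (F := fun a (c : ℕ) => (List.range (Mm k (G a) (ν a))).map (fun s => c * Mm k (G a) (ν a) + s)) (p_Qn hG)
    (NPC.Poly.map (F := fun (p : α × ℕ) (s : ℕ) => p.2 * Mm k (G p.1) (ν p.1) + s)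
      ((u_Mm k hG hν).comp (Poly.fst Poly.id)).range
      (NPC.Poly.add (NPC.Poly.mul (Poly.snd (Poly.fst Poly.id)) ((u_Mm k hG hν).toPoly.comp (Poly.fst (Poly.fst Poly.id))))
        (Poly.snd Poly.id)))

theorem p_edgesN (k : ℕ) (hG : NPC.Poly G) (hν : UPoly ν) : NPC.Poly (fun a => edgesN k (G a) (ν a)) := by
  have hM := u_Mm k hG hν
  refine NPC.Poly.flatMap (F := fun a (c : ℕ) => (List.range (Mm k (G a) (ν a))).flatMap (fun s =>
    (List.range (Mm k (G a) (ν a))).map (fun s' => (c * Mm k (G a) (ν a) + s,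
      (nbN (Mm k (G a) (ν a) - 1) (arcsM (G a) (ν a))[s]? c s s').1 * Mm k (G a) (ν a) +
      (nbN (Mm k (G a) (ν a) - 1) (arcsM (G a) (ν a))[s]? c s s').2)))) (p_Qn hG) ?_
  refine NPC.Poly.flatMap (F := fun (p : α × ℕ) (s : ℕ) =>
    (List.range (Mm k (G p.1) (ν p.1))).map (fun s' => (p.2 * Mm k (G p.1) (ν p.1) + s,
      (nbN (Mm k (G p.1) (ν p.1) - 1) (arcsM (G p.1) (ν p.1))[s]? p.2 s s').1 * Mm k (G p.1) (ν p.1) +
      (nbN (Mm k (G p.1) (ν p.1) - 1) (arcsM (G p.1) (ν p.1))[s]? p.2 s s').2))) (hM.comp (Poly.fst Poly.id)).range ?_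
  refine NPC.Poly.map (F := fun (q : (α × ℕ) × ℕ) (s' : ℕ) => (q.1.2 * Mm k (G q.1.1) (ν q.1.1) + q.2,
      (nbN (Mm k (G q.1.1) (ν q.1.1) - 1) (arcsM (G q.1.1) (ν q.1.1))[q.2]? q.1.2 q.2 s').1 * Mm k (G q.1.1) (ν q.1.1) +
      (nbN (Mm k (G q.1.1) (ν q.1.1) - 1) (arcsM (G q.1.1) (ν q.1.1))[q.2]? q.1.2 q.2 s').2))
      (hM.comp (Poly.fst (Poly.fst Poly.id))).range ?_
  -- the context
  have w : NPC.Poly (fun p : ((α × ℕ) × ℕ) × ℕ => p.1.1.1) := Poly.fst (Poly.fst (Poly.fst Poly.id))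
  have c : NPC.Poly (fun p : ((α × ℕ) × ℕ) × ℕ => p.1.1.2) := Poly.snd (Poly.fst (Poly.fst Poly.id))
  have s : NPC.Poly (fun p : ((α × ℕ) × ℕ) × ℕ => p.1.2) := Poly.snd (Poly.fst Poly.id)
  have s' : NPC.Poly (fun p : ((α × ℕ) × ℕ) × ℕ => p.2) := Poly.snd Poly.id
  have M' := hM.toPoly.comp w
  have N' := p_nbN (NPC.Poly.sub M' (NPC.Poly.const 1)) (NPC.Poly.getElem? ((p_arcsM hG hν).comp w) s) c s s'
  exact Poly.pair (NPC.Poly.add (NPC.Poly.mul c M') s) (NPC.Poly.add (NPC.Poly.mul (Poly.fst N') M') (Poly.snd N'))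

theorem p_gadR (k : ℕ) (hG : NPC.Poly G) (hν : UPoly ν) : NPC.Poly (fun a => gadR k (G a) (ν a)) :=
  Poly.pair (p_side k hG hν) (Poly.pair (p_side k hG hν) (p_edgesN k hG hν))

/-- the exponent of the factor -/
def expR (k : ℕ) (G : BGr) (ν : ℕ) : ℕ := Mm k G ν * (Qn G).length

theorem u_expR (k : ℕ) (hG : NPC.Poly G) (hν : UPoly ν) : UPoly (fun a => expR k (G a) (ν a)) :=
  UPoly.mul (u_Mm k hG hν) (UPoly.length (p_Qn hG))

theorem u_isoN (hG : NPC.Poly G) : UPoly (fun a => isoN (G a)) := by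
  refine UPoly.length (l := fun a => (G a).2.1.filter (fun v => !((G a).2.2.any (fun e => decide (e.2 = v))))) ?_
  refine NPC.Poly.filter (p := fun a (v : ℕ) => !((G a).2.2.any (fun e => decide (e.2 = v)))) (Poly.fst (Poly.snd hG)) ?_
  refine Poly.not (NPC.Poly.any (p := fun (p : α × ℕ) (e : ℕ × ℕ) => decide (e.2 = p.2))
    ((Poly.snd (Poly.snd hG)).comp (Poly.fst Poly.id)) ?_)
  exact Poly.decide_eq (Poly.snd (Poly.snd Poly.id)) (Poly.snd (Poly.fst Poly.id))

end Poly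

/-! ### The number of the independent sets -/

theorem isoN_le {G : BGr} (hG : IsBip G) : 2 ^ isoN G ≤ numIS G := by
  refine le_trans (Nat.pow_le_pow_right (by norm_num) ?_) (le_cnt G.2.2 G.1.toFinset G.2.1.toFinset)
  rw [List.toFinset_card_of_nodup hG.2.1]
  exact List.length_filter_le _ _

theorem gad_est (k : ℕ) {G : BGr} (hG : IsBip G) {N : ℕ} (hN : 0 < N) :
    (numIS (gadR k G N) : ℝ) ≤ ((2 ^ expR k G N : ℕ) : ℝ) * ((numIS G : ℕ) + (2 ^ isoN G : ℕ) + 1 / (16 * N)) ∧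
    ((2 ^ expR k G N : ℕ) : ℝ) * ((numIS G : ℕ) + (2 ^ isoN G : ℕ) - 1 / (16 * N)) ≤ (numIS (gadR k G N) : ℝ) := by
  have hN' : N ≤ SS G N := by unfold SS; omega
  have h := main_est (k := k) (SS_ge G N) (card_Cl_le hG N)
    (by rw [card_PT hG]; unfold SS nV; omega) hN' hN (card_arF k hG N) (Fintype.card_fin _) (arcsF k hG N)
  have hW : WW (PT G) (RT G) (Fin (Mm k G N)) = ((2 ^ expR k G N : ℕ) : ℝ) := by
    unfold WW expR
    rw [Fintype.card_fin, card_Cl hG]
    push_cast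
    rfl
  rw [hW, ← numIS_gadR, ← numIS_base, ← isoN_eq hG] at h
  push_cast at h ⊢
  exact h

/-- the approximation by integers -/
theorem approx_transferT {N : ℕ} (hN : 1 ≤ N) {Zh W B I : ℕ} {Z : ℝ} (hW : 0 < W) (hI : 0 < I) (hB : B ≤ I)
    (hZ1 : Z ≤ W * (I + B + 1 / (16 * N))) (hZ2 : W * (I + B - 1 / (16 * N)) ≤ Z)
    (h : Approx (16 * N) (Zh : ℝ) Z) :
    Approx N (((2 * (Zh - B * W) + W) / (2 * W) : ℕ) : ℝ) (I : ℝ) := by
  obtain ⟨h1, h2⟩ := h
  have hN' : (1 : ℝ) ≤ N := by exact_mod_cast hN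
  have hN0 : (0 : ℝ) < N := by linarith
  have hW' : (0 : ℝ) < W := by exact_mod_cast hW
  have hI' : (1 : ℝ) ≤ I := by exact_mod_cast hI
  have hB' : (B : ℝ) ≤ I := by exact_mod_cast hB
  have hB0 : (0 : ℝ) ≤ B := Nat.cast_nonneg _
  push_cast at h1 h2
  set e : ℝ := 1 / (16 * (N : ℝ)) with he
  have he0 : 0 < e := by positivity
  have he1 : e ≤ 1 / 16 := by
    rw [he]
    apply one_div_le_one_div_of_le (by norm_num)
    linarith
  have heN : 1 / (N : ℝ) = 16 * e := by rw [he]; field_simp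
  have h3 : (W : ℝ) * ((1 - e) * (I + B - e)) ≤ Zh := by
    refine le_trans ?_ h1
    have : (W : ℝ) * ((1 - e) * (I + B - e)) = (1 - e) * (W * (I + B - e)) := by ring
    rw [this]
    exact mul_le_mul_of_nonneg_left hZ2 (by linarith)
  have h4 : (Zh : ℝ) ≤ W * ((1 + e) * (I + B + e)) := by
    refine h2.trans ?_
    have : (W : ℝ) * ((1 + e) * (I + B + e)) = (1 + e) * (W * (I + B + e)) := by ring
    rw [this]
    exact mul_le_mul_of_nonneg_left hZ1 (by linarith)
  have a1 : (I : ℝ) - 4 * e * I ≤ (1 - e) * (I + B - e) - B := by nlinarith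
  have a2 : (1 + e) * (I + B + e) - B ≤ I + 4 * e * I := by nlinarith
  have hsub : B * W ≤ Zh := by
    have h5 : ((B * W : ℕ) : ℝ) ≤ Zh := by
      push_cast
      have h6 : (B : ℝ) * W ≤ W * ((1 - e) * (I + B - e)) := by
        rw [mul_comm]
        apply mul_le_mul_of_nonneg_left _ hW'.le
        nlinarith
      linarith
    exact_mod_cast h5
  -- the value
  obtain ⟨D, hD⟩ := Nat.exists_eq_add_of_le hsub
  have hD' : (D : ℝ) = Zh - B * W := by rw [hD]; push_cast; ring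
  have hD1 : (W : ℝ) * (I - 4 * e * I) ≤ D := by
    rw [hD']
    have := mul_le_mul_of_nonneg_left a1 hW'.le
    linarith
  have hD2 : (D : ℝ) ≤ W * (I + 4 * e * I) := by
    rw [hD']
    have := mul_le_mul_of_nonneg_left a2 hW'.le
    linarith
  rw [show Zh - B * W = D by omega]
  set r : ℕ := (2 * D + W) / (2 * W) with hr
  have r1 : r * (2 * W) ≤ 2 * D + W := Nat.div_mul_le_self _ _
  have r2 : 2 * D + W < (r + 1) * (2 * W) := by
    have := Nat.lt_succ_self ((2 * D + W) / (2 * W))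
    rw [hr]
    exact (Nat.div_lt_iff_lt_mul (by omega)).1 this
  have r1' : (r : ℝ) * (2 * W) ≤ 2 * D + W := by exact_mod_cast r1
  have r2' : (2 * D + W : ℝ) < (r + 1) * (2 * W) := by exact_mod_cast r2
  have r3 : (r : ℝ) ≤ I + 4 * e * I + 1 / 2 := by
    have : (r : ℝ) * (2 * W) ≤ (I + 4 * e * I + 1 / 2) * (2 * W) := by linarith
    exact le_of_mul_le_mul_right this (by linarith)
  have r4 : (I : ℝ) - 4 * e * I - 1 / 2 < r := by
    have : (I - 4 * e * I + 1 / 2) * (2 * W) < ((r : ℝ) + 1) * (2 * W) := by linarith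
    have := lt_of_mul_lt_mul_right this (by linarith)
    linarith
  by_cases hc : 8 * e * I < 1
  · have hrI : r = I := by
      have s1 : (r : ℝ) < I + 1 := by linarith
      have s2 : (I : ℝ) < r + 1 := by linarith
      have s1' : r < I + 1 := by exact_mod_cast s1
      have s2' : I < r + 1 := by exact_mod_cast s2
      omega
    rw [hrI]
    have : (0 : ℝ) < 16 * e * I := by positivity
    constructor
    · rw [heN]; linarith
    · rw [heN]; linarith
  · constructor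
    · rw [heN]; linarith
    · rw [heN]; linarith

/-! ### The transfer -/

/-- An FPRAS for the regular graphs of degree at least `n ^ (1 - 1 / (k + 1))` gives an FPRAS for all bipartite
graphs. -/
theorem transferR (k : ℕ) (h : HasFPRASOn (fun G : BGr => IsBip G ∧ RegDense k G) numIS) : HasFPRASOn IsBip numIS := by
  obtain ⟨F, A, p, hA, hAF, hF⟩ := h
  have hFp : NPC.Poly F := poly_of_code (0, 0) hA hAF
  have hgad : NPC.Poly (fun a : BGr × List Bool => gadR k a.1 a.2.length) :=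
    p_gadR k (Poly.fst Poly.id) (UPoly.length (Poly.snd Poly.id))
  obtain ⟨q, hq⟩ := hgad.sz_le
  set nu : BGr × ℕ × List Bool → ℕ := fun x => min x.2.1 x.2.2.length with hnu
  set len : BGr × ℕ × List Bool → ℕ := fun x => p.eval ((bits (gadR k x.1 (nu x))).length + 16 * x.2.1) with hlen
  set G' : BGr × ℕ × List Bool → ℕ × ℕ := fun x =>
    F (gadR k x.1 (nu x), 16 * x.2.1, x.2.2.take (len x)) with hG'
  have hG0 : NPC.Poly (fun x : BGr × ℕ × List Bool => x.1) := Poly.fst Poly.id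
  have hN0 : NPC.Poly (fun x : BGr × ℕ × List Bool => x.2.1) := Poly.fst (Poly.snd Poly.id)
  have hr0 : NPC.Poly (fun x : BGr × ℕ × List Bool => x.2.2) := Poly.snd (Poly.snd Poly.id)
  have hnuU : UPoly nu := UPoly.of_le (NPC.Poly.min hN0 (Poly.length hr0)) (UPoly.length hr0) fun x => min_le_right _ _
  have hG1 : NPC.Poly (fun x : BGr × ℕ × List Bool => gadR k x.1 (nu x)) := p_gadR k hG0 hnuU
  have h16 : NPC.Poly (fun x : BGr × ℕ × List Bool => 16 * x.2.1) := NPC.Poly.mul (NPC.Poly.const 16) hN0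
  have hlenP : NPC.Poly len := p_eval (NPC.Poly.add (Poly.length (p_bits.comp hG1)) h16) p
  have hG'P : NPC.Poly G' := hFp.comp (Poly.pair hG1 (Poly.pair h16 (p_take hr0 hlenP)))
  have hWP : NPC.Poly (fun x : BGr × ℕ × List Bool => 2 ^ expR k x.1 (nu x)) := p_two_pow (u_expR k hG0 hnuU)
  have hBP : NPC.Poly (fun x : BGr × ℕ × List Bool => 2 ^ isoN x.1) := p_two_pow (u_isoN hG0)
  have hout : NPC.Poly (fun x : BGr × ℕ × List Bool =>
      ((G' x).1 - 2 ^ isoN x.1 * 2 ^ expR k x.1 (nu x) * (G' x).2, (G' x).2 * 2 ^ expR k x.1 (nu x))) :=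
    Poly.pair (NPC.Poly.sub (Poly.fst hG'P) (NPC.Poly.mul (NPC.Poly.mul hBP hWP) (Poly.snd hG'P)))
      (NPC.Poly.mul (Poly.snd hG'P) hWP)
  obtain ⟨B, hB, hB'⟩ := exists_polyTime hout (0, 0)
  set pp : Polynomial ℕ := p.comp (q.comp (Polynomial.C 4 * Polynomial.X + Polynomial.C 2) + Polynomial.C 16 * Polynomial.X) +
    Polynomial.X with hpp
  refine ⟨_, B, pp, hB, hB', ?_⟩
  intro G hG N hN
  have hP := hF (gadR k G N) ⟨gadR_isBip k hG N, gadR_reg k hG N⟩ (16 * N) (by omega)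
  set l := p.eval ((bits (gadR k G N)).length + 16 * N) with hl
  set l' := pp.eval ((bits G).length + N) with hl'
  have hev : l' = p.eval (q.eval (4 * ((bits G).length + N) + 2) + 16 * ((bits G).length + N)) + ((bits G).length + N) := by
    rw [hl', hpp]
    simp only [Polynomial.eval_add, Polynomial.eval_comp, Polynomial.eval_mul, Polynomial.eval_C, Polynomial.eval_X]
  have hNl : N ≤ l' := by omega
  have hll' : l ≤ l' := by
    rw [hev, hl]
    refine le_trans (eval_mono p ?_) (Nat.le_add_right _ _)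
    have h1 : (bits (gadR k G N)).length ≤ q.eval (sz ((G, List.replicate N true) : BGr × List Bool)) := by
      have := hq (G, List.replicate N true)
      simp only [List.length_replicate] at this
      exact this
    have h2 : sz ((G, List.replicate N true) : BGr × List Bool) ≤ 4 * ((bits G).length + N) + 2 := by
      rw [sz_pair]
      have h3 := sz_listBool_le (List.replicate N true)
      rw [List.length_replicate] at h3
      have h4 : (bits G).length = sz G := rfl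
      omega
    have h5 := eval_mono q h2
    omega
  have hest := gad_est k hG (N := N) (by omega)
  set good : List Bool → Prop := fun r =>
    Approx (16 * N) (((F (gadR k G N, 16 * N, r)).1 : ℝ) / (F (gadR k G N, 16 * N, r)).2)
      (numIS (gadR k G N)) with hgood
  have h1 := ncard_take good l l' hll'
  have h2 : {r : List Bool | r.length = l' ∧ good (r.take l)} ⊆
      {r : List Bool | r.length = l' ∧ Approx N
        ((((((G' (G, N, r)).1 - 2 ^ isoN G * 2 ^ expR k G (nu (G, N, r)) * (G' (G, N, r)).2,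
          (G' (G, N, r)).2 * 2 ^ expR k G (nu (G, N, r))) : ℕ × ℕ).1 : ℕ) : ℝ) /
        ((((G' (G, N, r)).1 - 2 ^ isoN G * 2 ^ expR k G (nu (G, N, r)) * (G' (G, N, r)).2,
          (G' (G, N, r)).2 * 2 ^ expR k G (nu (G, N, r))) : ℕ × ℕ).2 : ℕ)) (numIS G)} := by
    rintro r ⟨hr1, hr2⟩
    refine ⟨hr1, ?_⟩
    have hnu' : nu (G, N, r) = N := by
      rw [hnu]
      simp only
      rw [hr1]
      exact min_eq_left hNl
    have h3 : G' (G, N, r) = F (gadR k G N, 16 * N, r.take l) := by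
      rw [hG']
      simp only [hlen]
      rw [hnu']
    rw [h3, hnu']
    simp only [hgood] at hr2
    exact approx_transfer hN (by positivity) (one_le_numIS G) (isoN_le hG) hest.1 hest.2 hr2
  have h3 := Set.ncard_le_ncard h2 ((finite_strings l').subset fun r hr => hr.1)
  calc 3 * 2 ^ l' = 3 * 2 ^ l * 2 ^ (l' - l) := by
        rw [Nat.mul_assoc, ← pow_add, show l + (l' - l) = l' by omega]
    _ ≤ 4 * {r : List Bool | r.length = l ∧ good r}.ncard * 2 ^ (l' - l) :=
        Nat.mul_le_mul_right _ hP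
    _ = 4 * ({r : List Bool | r.length = l ∧ good r}.ncard * 2 ^ (l' - l)) := by ring
    _ ≤ 4 * {r : List Bool | r.length = l' ∧ good (r.take l)}.ncard := Nat.mul_le_mul_left _ h1
    _ ≤ _ := Nat.mul_le_mul_left _ h3

/-- An FPTAS for the regular graphs of degree at least `n ^ (1 - 1 / (k + 1))` gives an FPTAS for all bipartite
graphs. -/
theorem transferT (k : ℕ) (h : HasFPTASOn (fun G : BGr => IsBip G ∧ RegDense k G) numIS) : HasFPTASOn IsBip numIS := by
  obtain ⟨F, A, hA, hAF, hF⟩ := h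
  have hFp : NPC.Poly F := poly_of_code 0 hA hAF
  have hG0 : NPC.Poly (fun x : BGr × List Bool => x.1) := Poly.fst Poly.id
  have hw0 : UPoly (fun x : BGr × List Bool => x.2.length) := UPoly.length (Poly.snd Poly.id)
  have hG1 : NPC.Poly (fun x : BGr × List Bool => gadR k x.1 x.2.length) := p_gadR k hG0 hw0
  have hG'P : NPC.Poly (fun x : BGr × List Bool => F (gadR k x.1 x.2.length, List.replicate (16 * x.2.length) false)) :=
    hFp.comp (Poly.pair hG1 (p_replicate (UPoly.mul (UPoly.const 16) hw0) (NPC.Poly.const false)))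
  have hWP : NPC.Poly (fun x : BGr × List Bool => 2 ^ expR k x.1 x.2.length) := p_two_pow (u_expR k hG0 hw0)
  have hBP : NPC.Poly (fun x : BGr × List Bool => 2 ^ isoN x.1) := p_two_pow (u_isoN hG0)
  have hout : NPC.Poly (fun x : BGr × List Bool =>
      (2 * (F (gadR k x.1 x.2.length, List.replicate (16 * x.2.length) false) - 2 ^ isoN x.1 * 2 ^ expR k x.1 x.2.length) +
        2 ^ expR k x.1 x.2.length) / (2 * 2 ^ expR k x.1 x.2.length)) :=
    Poly.div (NPC.Poly.add (NPC.Poly.mul (NPC.Poly.const 2) (NPC.Poly.sub hG'P (NPC.Poly.mul hBP hWP))) hWP)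
      (NPC.Poly.mul (NPC.Poly.const 2) hWP)
  obtain ⟨B, hB, hB'⟩ := exists_polyTime hout 0
  refine ⟨_, B, hB, hB', ?_⟩
  intro G hG w hw
  have hN : 0 < w.length := List.length_pos_iff.2 hw
  have hP := hF (gadR k G w.length) ⟨gadR_isBip k hG _, gadR_reg k hG _⟩ (List.replicate (16 * w.length) false) (by
    rw [Ne, ← List.length_eq_zero_iff, List.length_replicate]
    omega)
  rw [List.length_replicate] at hP
  have hest := gad_est k hG hN
  exact approx_transferT hN (by positivity) (one_le_numIS G) (isoN_le hG) hest.1 hest.2 hP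

theorem HasFPRASOn.mono {C C' : BGr → Prop} (h : ∀ G, C' G → C G) (hC : HasFPRASOn C numIS) : HasFPRASOn C' numIS := by
  obtain ⟨F, A, p, hA, hAF, hF⟩ := hC
  exact ⟨F, A, p, hA, hAF, fun G hG => hF G (h G hG)⟩

theorem HasFPTASOn.mono {C C' : BGr → Prop} (h : ∀ G, C' G → C G) (hC : HasFPTASOn C numIS) : HasFPTASOn C' numIS := by
  obtain ⟨F, A, hA, hAF, hF⟩ := hC
  exact ⟨F, A, hA, hAF, fun G hG => hF G (h G hG)⟩

end Pool.Agent.J4H95.RB
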